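import Pool.Agent.Y463.UT.Fib

/-!
# The induction on the dimension
-/

set_option autoImplicit false

namespace Pool.Agent.Y463.UT

open Finset Pool.Agent.W705.JR Pool.Agent.Y463.MP

variable {K : Type} [Field K] {V : Type} [AddCommGroup V] [Module K V] {P : Type} {J : Type}
  {s : J → Equiv.Perm (XX K V P)} {ξ : V} {Site : J × Law → J × Law → Prop}

/-- the product of the averages -/
noncomputable def avL (s : J → Equiv.Perm (XX K V P)) : List (J × Law) → L2 (XX K V P) → L2 (XX K V P)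
  | [], f => f
  | (a :: L), f => av (s a.1) a.2 (avL s L f)

section main

variable (N : Set (XX K V P)) (hN : ∀ (j : J) (n : ℤ) (x : XX K V P), (s j ^ n) x ∈ N → x ∈ N)
include hN

theorem av_supp (a : J × Law) (f : L2 (XX K V P)) (hf : ∀ x, x ∉ N → f x = 0) : 
    ∀ x, x ∉ N → av (s a.1) a.2 f x = 0 := by
  intro x hx
  rw [av_apply]
  refine Finset.sum_eq_zero fun n _ => ?_
  rw [hf, mul_zero]
  intro h
  rw [inv_zpow'] at h
  exact hx (hN a.1 (-n) x h)

theorem avL_supp (f : L2 (XX K V P)) (hf : ∀ x, x ∉ N → f x = 0) : 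
    ∀ (L : List (J × Law)) (x : XX K V P), x ∉ N → avL s L f x = 0
  | [] => hf
  | (a :: L) => av_supp N hN a _ (avL_supp f hf L)

variable (𝒲 : Set (XX K V P)) (h𝒲 : ∀ x ∈ 𝒲, ∀ (j : J) (n : ℤ), (s j ^ n) x ∈ 𝒲) 
  (hξ : ∀ x ∈ 𝒲, x ∉ N → ξ ∉ x.2)
include h𝒲 hξ

theorem hit_zero : ∀ (L : List (J × Law)) (x : XX K V P), x ∈ 𝒲 → x ∉ N → hit s ξ L x = 0
  | [], x, hx, hxN => by
    unfold hit
    rw [if_neg (hξ x hx hxN)]
  | (a :: L), x, hx, hxN => by
    unfold hit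
    refine Finset.sum_eq_zero fun n _ => ?_
    rw [inv_zpow', hit_zero L _ (h𝒲 x hx a.1 (-n)) (fun h => hxN (hN a.1 (-n) x h)), mul_zero]

omit h𝒲 hξ
variable (ρ : ℝ) (hρ0 : 0 ≤ ρ) (hρ : ∀ a a', Site a a' → ∀ f : L2 (XX K V P), 
  (∀ x, x ∉ N → f x = 0) → ‖av (s a.1) a.2 (av (s a'.1) a'.2 f)‖ ≤ ρ * ‖f‖)
include hρ0 hρ

theorem avL_norm (f : L2 (XX K V P)) (hf : ∀ x, x ∉ N → f x = 0) {L : List (J × Law)} {k : ℕ} 
    (h : Con Site L k) : ‖avL s L f‖ ≤ ρ ^ k * ‖f‖ := by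
  induction h with
  | nil => rw [pow_zero, one_mul]; exact le_rfl
  | cons q _ ih => exact (av_norm_le _ _ _).trans ih
  | @site L k q q' hs _ ih =>
    refine (hρ q q' hs (avL s L f) (avL_supp N hN f hf L)).trans ?_
    calc ρ * ‖avL s L f‖ ≤ ρ * (ρ ^ k * ‖f‖) := mul_le_mul_of_nonneg_left ih hρ0
      _ = _ := by rw [pow_succ']; ring

include h𝒲 hξ 
variable (hs : ∀ j, FibLin (s j)) 
  (h𝒲' : ∀ (U : P) (W : Submodule K V), (U, W) ∈ 𝒲 → ∀ W' ≤ W, ((U, W') : XX K V P) ∈ 𝒲)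
include hs h𝒲'

/-- the step of the induction -/
theorem core [FiniteDimensional K V] [Fintype P]
    (d k : ℕ) (ε : ℝ) (hε : 0 < ε) (L1 L2' : List (J × Law)) (hC1 : Con Site L1 k) 
    (hd : ∀ x ∈ 𝒲, Module.finrank K x.2 ≤ d → hit s ξ L2' x ≤ ε) 
    (x : XX K V P) (hx : x ∈ 𝒲) (hxd : Module.finrank K x.2 = d + 1) :
    hit s ξ (L1 ++ L2') x ≤ 2 * ε + ρ ^ k * √(2 * Fintype.card P / ε ^ d) := by
  classical
  set C : ℝ := 2 * Fintype.card P / ε ^ d with hCdef
  have hC0 : 0 ≤ C := by positivity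
  set Fτ : Set (XX K V P) := {y | y ∈ 𝒲 ∧ Module.finrank K y.2 = d + 1 ∧ 2 * ε < hit s ξ L2' y} with hF
  have h1 : ∀ F : Finset (XX K V P), (∀ y ∈ F, y ∈ Fτ) → ∑ y ∈ F, hit s ξ L2' y ≤ C := by
    intro F hF1
    have e1 : ∑ y ∈ F, hit s ξ L2' y = ∑ U : P, ∑ y ∈ F.filter (fun y => y.1 = U), hit s ξ L2' y := 
      (Finset.sum_fiberwise F (fun y => y.1) _).symm
    rw [e1]
    have e2 : ∀ U : P, ∑ y ∈ F.filter (fun y => y.1 = U), hit s ξ L2' y ≤ 2 / ε ^ d := by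
      intro U
      obtain ⟨Y, hY, p, η, hp, hsum, hmass⟩ := hit_eq_mass (ξ := ξ) hs L2' U
      set G : Finset (Submodule K V) := (F.filter (fun y => y.1 = U)).image (fun y => y.2) with hG
      have e3 : ∑ y ∈ F.filter (fun y => y.1 = U), hit s ξ L2' y = ∑ W ∈ G, mass p η W := by
        rw [hG, Finset.sum_image]
        · refine Finset.sum_congr rfl fun y hy => ?_
          rw [← hmass, ← (Finset.mem_filter.1 hy).2]
        · intro y hy y' hy' hyy
          have a1 := (Finset.mem_filter.1 (Finset.mem_coe.1 hy)).2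
          have a2 := (Finset.mem_filter.1 (Finset.mem_coe.1 hy')).2
          exact Prod.ext (a1.trans a2.symm) hyy
      have hGm : ∀ W ∈ G, ((U, W) : XX K V P) ∈ Fτ := by
        intro W hW
        rw [hG, Finset.mem_image] at hW
        obtain ⟨y, hy, rfl⟩ := hW
        obtain ⟨hy1, hy2⟩ := Finset.mem_filter.1 hy
        rw [← hy2]
        exact hF1 y hy1
      have e4 := sum_mass_le (p := p) (η := η) hp hsum d ε hε G (fun W hW => (hGm W hW).2.1) 
        (fun W hW W' hW' hd' => by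
          rw [← hmass]
          exact hd (U, W') (h𝒲' U W (hGm W hW).1 W' hW') hd') 
        (fun W hW => by
          rw [← hmass]
          exact (hGm W hW).2.2.le)
      rw [e3, le_div_iff₀ (by positivity)]
      exact e4
    refine (Finset.sum_le_sum fun U _ => e2 U).trans (le_of_eq ?_)
    rw [Finset.sum_const, Finset.card_univ, nsmul_eq_mul, hCdef]
    ring
  have hfin : Fτ.Finite := by
    by_contra hinf
    have hinf : Fτ.Infinite := hinf
    obtain ⟨n, hn⟩ := exists_nat_gt (C / (2 * ε))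
    obtain ⟨F, hF1, hF2⟩ := hinf.exists_subset_card_eq n
    have h2 := h1 F (fun W hW => hF1 hW)
    have h3 : (F.card : ℝ) * (2 * ε) ≤ C := by
      refine le_trans ?_ h2
      rw [← nsmul_eq_mul]
      exact Finset.card_nsmul_le_sum F _ _ (fun W hW => (hF1 hW).2.2.le)
    rw [hF2] at h3
    rw [div_lt_iff₀ (by positivity)] at hn
    linarith
  have hsum : Summable fun y => (if y ∈ Fτ then hit s ξ L2' y else 0) ^ 2 := by
    refine summable_of_ne_finset_zero (s := hfin.toFinset) fun W hW => ?_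
    rw [if_neg (fun h => hW (hfin.mem_toFinset.2 h))]
    simp
  let φ : L2 (XX K V P) := ⟨fun y => if y ∈ Fτ then hit s ξ L2' y else 0, mem_of_summable hsum⟩
  have hφ : ∀ y, φ y = if y ∈ Fτ then hit s ξ L2' y else 0 := fun y => rfl
  have hφn : ‖φ‖ ≤ √C := by
    have e1 : ‖φ‖ ^ 2 ≤ C := by
      rw [norm_sq, tsum_eq_sum (s := hfin.toFinset) (fun W hW => by
        rw [hφ, if_neg (fun h => hW (hfin.mem_toFinset.2 h))]; simp)]
      refine le_trans (Finset.sum_le_sum (g := fun y => hit s ξ L2' y) fun y hy => ?_) 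
        (h1 hfin.toFinset (fun W hW => hfin.mem_toFinset.1 hW))
      rw [hφ, if_pos (hfin.mem_toFinset.1 hy)]
      have e2 := hit_nonneg (s := s) (ξ := ξ) L2' y
      have e3 := hit_le_one (s := s) (ξ := ξ) L2' y
      nlinarith
    exact Real.le_sqrt_of_sq_le e1
  have hsupp : ∀ y, y ∉ N → φ y = 0 := by
    intro y hy
    rw [hφ]
    split_ifs with h
    · exact hit_zero N hN 𝒲 h𝒲 hξ L2' y h.1 hy
    · rfl
  have hnorm := avL_norm N hN ρ hρ0 hρ φ hsupp hC1
  have hmain : ∀ (L : List (J × Law)) (y : XX K V P), y ∈ 𝒲 → Module.finrank K y.2 = d + 1 → 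
      hit s ξ (L ++ L2') y ≤ 2 * ε + (avL s L φ) y := by
    intro L
    induction L with
    | nil =>
      intro y hy hyd
      show hit s ξ L2' y ≤ 2 * ε + φ y
      rw [hφ]
      split_ifs with h
      · linarith
      · rw [add_zero]
        by_contra hcon
        exact h ⟨hy, hyd, not_le.1 hcon⟩
    | cons a L ih =>
      intro y hy hyd
      have e0 : avL s (a :: L) φ = av (s a.1) a.2 (avL s L φ) := rfl
      have e1 : hit s ξ ((a :: L) ++ L2') y = 
        ∑ n ∈ a.2.A, a.2.p n * hit s ξ (L ++ L2') ((s a.1 ^ n)⁻¹ y) := rfl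
      rw [e0, av_apply, e1]
      have e2 : 2 * ε = ∑ n ∈ a.2.A, a.2.p n * (2 * ε) := by rw [← Finset.sum_mul, a.2.sum, one_mul]
      calc ∑ n ∈ a.2.A, a.2.p n * hit s ξ (L ++ L2') ((s a.1 ^ n)⁻¹ y)
          ≤ ∑ n ∈ a.2.A, a.2.p n * (2 * ε + (avL s L φ) ((s a.1 ^ n)⁻¹ y)) := by
            refine Finset.sum_le_sum fun n _ => mul_le_mul_of_nonneg_left (ih _ ?_ ?_) (a.2.nn n)
            · rw [inv_zpow']
              exact h𝒲 y hy a.1 (-n)
            · obtain ⟨U', g, hg⟩ := ((hs a.1).zpow n).inv y.1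
              have e3 : (s a.1 ^ n)⁻¹ y = (U', y.2.comap (g : V →ₗ[K] V)) := hg y.2
              rw [e3]
              show Module.finrank K (y.2.comap (g : V →ₗ[K] V) : Submodule K V) = d + 1
              rw [← hyd]
              exact act_inv_finrank g y.2
        _ = _ := by
            simp only [mul_add, Finset.sum_add_distrib]
            rw [← e2]
  have h5 := hmain L1 x hx hxd
  have h6 : (avL s L1 φ) x ≤ ‖avL s L1 φ‖ := by
    have := lp.norm_apply_le_norm (p := 2) (by norm_num) (avL s L1 φ) x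
    exact le_trans (le_abs_self _) this
  have h7 : ρ ^ k * ‖φ‖ ≤ ρ ^ k * √C := mul_le_mul_of_nonneg_left hφn (by positivity)
  linarith

end main

/-- the constants -/
noncomputable def cst (c : ℕ) : ℕ → ℝ
  | 0 => 1
  | (d+1) => 2 * cst c d + √(2 * c)

theorem cst_ge (c : ℕ) : ∀ d, 1 ≤ cst c d
  | 0 => le_rfl
  | (d+1) => by
    have h1 := cst_ge c d
    have h2 : 0 ≤ √(2 * (c:ℝ)) := Real.sqrt_nonneg _
    unfold cst
    linarith

theorem decay [Fintype P] [FiniteDimensional K V] (hs : ∀ j, FibLin (s j)) (N : Set (XX K V P)) 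
    (hN : ∀ (j : J) (n : ℤ) (x : XX K V P), (s j ^ n) x ∈ N → x ∈ N)
    (hbot : ∀ U : P, ((U, ⊥) : XX K V P) ∉ N) 
    (𝒲 : Set (XX K V P)) (h𝒲 : ∀ x ∈ 𝒲, ∀ (j : J) (n : ℤ), (s j ^ n) x ∈ 𝒲) 
    (h𝒲' : ∀ (U : P) (W : Submodule K V), (U, W) ∈ 𝒲 → ∀ W' ≤ W, ((U, W') : XX K V P) ∈ 𝒲)
    (hξ : ∀ x ∈ 𝒲, x ∉ N → ξ ∉ x.2) (ρ : ℝ) (hρ0 : 0 < ρ) (hρ1 : ρ ≤ 1) 
    (hρ : ∀ a a', Site a a' → ∀ f : L2 (XX K V P), 
      (∀ x, x ∉ N → f x = 0) → ‖av (s a.1) a.2 (av (s a'.1) a'.2 f)‖ ≤ ρ * ‖f‖) (u : ℕ) : 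
    ∀ (d : ℕ) (x : XX K V P), x ∈ 𝒲 → Module.finrank K x.2 ≤ d → ∀ L : List (J × Law), 
      Con Site L ((d * (d + 1) / 2) * u) → hit s ξ L x ≤ cst (Fintype.card P) d * ρ ^ u := by
  intro d
  induction d with
  | zero =>
    intro x hx hxd L _
    obtain ⟨U, W⟩ := x
    have hW : W = ⊥ := Submodule.finrank_eq_zero.1 (Nat.le_zero.1 hxd)
    subst hW
    rw [hit_zero N hN 𝒲 h𝒲 hξ L _ hx (hbot U)]
    have := cst_ge (Fintype.card P) 0
    positivity
  | succ d ih =>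
    intro x hx hxd L hL
    have hT : (d + 1) * (d + 1 + 1) / 2 = (d + 1) + d * (d + 1) / 2 := by
      have h1 : (d + 1) * (d + 1 + 1) = 2 * (d + 1) + d * (d + 1) := by ring
      rw [h1, Nat.add_comm (2 * (d + 1)), Nat.add_mul_div_left _ _ (by norm_num), Nat.add_comm]
    rw [hT, add_mul] at hL
    have hc := cst_ge (Fintype.card P) d
    have hsq : 0 ≤ √(2 * (Fintype.card P : ℝ)) := Real.sqrt_nonneg _
    have hpu : 0 < ρ ^ u := pow_pos hρ0 u
    rcases Nat.lt_or_ge (Module.finrank K x.2) (d + 1) with hlt | hge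
    · have h1 := ih x hx (by omega) L (hL.drop _ (Nat.le_add_left _ _))
      refine h1.trans (mul_le_mul_of_nonneg_right ?_ hpu.le)
      rw [cst]
      linarith
    · have hxd' : Module.finrank K x.2 = d + 1 := by omega
      obtain ⟨L1, L2', rfl, hC1, hC2⟩ := hL.split _ _ rfl
      obtain ⟨ε, hε⟩ : ∃ e : ℝ, e = cst (Fintype.card P) d * ρ ^ u := ⟨_, rfl⟩
      have hε0 : 0 < ε := by rw [hε]; positivity
      have h1 := core (ξ := ξ) N hN 𝒲 h𝒲 hξ ρ hρ0.le hρ hs h𝒲' d ((d + 1) * u) ε hε0 L1 L2' hC1 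
        (fun y hy hyd => by rw [hε]; exact ih y hy hyd L2' hC2) x hx hxd'
      refine h1.trans ?_
      have h2 : ρ ^ ((d + 1) * u) * √(2 * (Fintype.card P : ℝ) / ε ^ d) ≤ 
          √(2 * (Fintype.card P : ℝ)) * ρ ^ u := by
        refine abs_le_of_sq_le_sq' ?_ (by positivity) |>.2
        rw [mul_pow, mul_pow, Real.sq_sqrt (by positivity), Real.sq_sqrt (by positivity)]
        have h3 : ρ ^ (2 * u * d) ≤ ε ^ d := by
          rw [pow_mul]
          apply pow_le_pow_left₀ (by positivity)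
          calc ρ ^ (2 * u) ≤ ρ ^ u := pow_le_pow_of_le_one hρ0.le hρ1 (by omega)
            _ = 1 * ρ ^ u := (one_mul _).symm
            _ ≤ ε := by rw [hε]; exact mul_le_mul_of_nonneg_right hc hpu.le
        rw [mul_div_assoc', div_le_iff₀ (by positivity)]
        have h4 : (ρ ^ ((d + 1) * u)) ^ 2 = (ρ ^ u) ^ 2 * ρ ^ (2 * u * d) := by
          rw [← pow_mul, ← pow_mul, ← pow_add]
          congr 1
          ring
        rw [h4]
        calc (ρ ^ u) ^ 2 * ρ ^ (2 * u * d) * (2 * (Fintype.card P : ℝ)) 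
            ≤ (ρ ^ u) ^ 2 * ε ^ d * (2 * (Fintype.card P : ℝ)) := by gcongr
          _ = _ := by ring
      rw [cst]
      have h5 : (2 * cst (Fintype.card P) d + √(2 * (Fintype.card P : ℝ))) * ρ ^ u = 
          2 * ε + √(2 * (Fintype.card P : ℝ)) * ρ ^ u := by rw [hε]; ring
      rw [h5]
      linarith

end Pool.Agent.Y463.UT
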