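import Pool.Agent.Y463.UT.Alg
import Pool.Agent.Y463.UT.Rec
import Pool.Agent.Y463.MP.Site
import Pool.Agent.Y463.MP.Sgn

/-!
# The action of the braid generators on the fibred space of subspaces
-/

set_option autoImplicit false

namespace Pool.Agent.Y463.UT

open Matrix Pool.Agent.H891R2.Jones Pool.Agent.W639.RB Pool.Agent.Y463.MP Pool.Agent.Y463.SK
open Pool.Agent.W705.JR (idx_lt inv' sgn sgn_not sw cst2 cst2_sw sw_sw L2)

variable {m : ℕ} {K R : Type} [Field K] [Ring R] [Algebra K R]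

section letters

variable (D : TLD m K R)

theorem s1_inv (x : Letter m) (v : R) : D.s1 x (D.s1 (inv' x) v) = v := by
  show sg (D.Bb x.1) D.e x.2 * (sg (D.Bb (!x.1)) D.e x.2 * v) = v
  rw [TLD.Bb_not, ← mul_assoc, sg_inv (D.Bb_ne x.1) (D.Bb_d x.1) D.rel x.2 (idx_lt x), one_mul]

/-- the letters on `R × K`, in the presence of the directions `U` of the strands -/
noncomputable def gX (x : Letter m) (U : Fin m → Bool) : (R × K) ≃ₗ[K] (R × K) :=
  LinearEquiv.prodCongr (D.s1 x) 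
    (LinearEquiv.smulOfNeZero K K (D.qq ^ (sgn x.1 * cst2 x U)) (zpow_ne_zero _ D.qq_ne))

theorem gX_apply (x : Letter m) (U : Fin m → Bool) (v : R × K) : 
    gX D x U v = (D.s1 x v.1, D.qq ^ (sgn x.1 * cst2 x U) * v.2) := rfl

theorem gX_inv (x : Letter m) (U : Fin m → Bool) : gX D (inv' x) (U ∘ sw x) = (gX D x U).symm := by
  apply LinearEquiv.ext
  intro v
  apply (gX D x U).injective
  rw [LinearEquiv.apply_symm_apply, gX_apply, gX_apply]
  refine Prod.ext (s1_inv D x v.1) ?_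
  show D.qq ^ (sgn x.1 * cst2 x U) * (D.qq ^ (sgn (!x.1) * cst2 (inv' x) (U ∘ sw x)) * v.2) = v.2
  have h1 : cst2 (inv' x) (U ∘ sw x) = cst2 x U := cst2_sw x U
  rw [h1, sgn_not, ← mul_assoc, ← zpow_add₀ D.qq_ne]
  have h2 : sgn x.1 * cst2 x U + -sgn x.1 * cst2 x U = 0 := by ring
  rw [h2, zpow_zero, one_mul]

/-- the letters on the fibred space -/
noncomputable def sX (x : Letter m) : Equiv.Perm (XX K (R × K) (Fin m → Bool)) where
  toFun y := (y.1 ∘ sw x, y.2.map (gX D x (y.1 ∘ sw x) : (R × K) →ₗ[K] (R × K)))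
  invFun y := (y.1 ∘ sw x, y.2.comap (gX D x y.1 : (R × K) →ₗ[K] (R × K)))
  left_inv y := by
    refine Prod.ext (sw_sw x y.1) ?_
    exact Submodule.comap_map_eq_of_injective (gX D x (y.1 ∘ sw x)).injective y.2
  right_inv y := by
    refine Prod.ext (sw_sw x y.1) ?_
    show (y.2.comap (gX D x y.1 : (R × K) →ₗ[K] (R × K))).map 
      (gX D x ((y.1 ∘ sw x) ∘ sw x) : (R × K) →ₗ[K] (R × K)) = y.2
    rw [sw_sw]
    exact Submodule.map_comap_eq_of_surjective (gX D x y.1).surjective y.2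

theorem sX_apply (x : Letter m) (y : XX K (R × K) (Fin m → Bool)) : 
    sX D x y = (y.1 ∘ sw x, y.2.map (gX D x (y.1 ∘ sw x) : (R × K) →ₗ[K] (R × K))) := rfl

theorem sX_inv_apply (x : Letter m) (y : XX K (R × K) (Fin m → Bool)) : 
    (sX D x)⁻¹ y = (y.1 ∘ sw x, y.2.comap (gX D x y.1 : (R × K) →ₗ[K] (R × K))) := rfl

theorem sX_inv' (x : Letter m) : sX D (inv' x) = (sX D x)⁻¹ := by
  apply Equiv.ext
  intro y
  rw [sX_apply, sX_inv_apply]
  refine Prod.ext rfl ?_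
  show y.2.map (gX D (inv' x) (y.1 ∘ sw x) : (R × K) →ₗ[K] (R × K)) = _
  rw [gX_inv]
  exact (Submodule.comap_equiv_eq_map_symm (gX D x y.1) y.2).symm

theorem sX_fib (x : Letter m) : FibLin (sX D x) := by
  have h : FibLin (sX D x)⁻¹ := fun U => ⟨U ∘ sw x, gX D x U, fun W => rfl⟩
  have h2 := h.inv
  rwa [inv_inv] at h2

/-- words -/
noncomputable def wX (w : List (Letter m)) : Equiv.Perm (XX K (R × K) (Fin m → Bool)) := 
  (w.map (sX D)).prod

theorem wX_nil : wX D [] = 1 := rfl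

theorem wX_cons (x : Letter m) (w : List (Letter m)) : wX D (x :: w) = sX D x * wX D w := by
  simp [wX]

theorem wX_append (w w' : List (Letter m)) : wX D (w ++ w') = wX D w * wX D w' := by
  simp [wX]

theorem wX_invW (w : List (Letter m)) : wX D (invW w) = (wX D w)⁻¹ := by
  induction w with
  | nil => rfl
  | cons x w ih =>
    have h1 : invW (x :: w) = invW w ++ [inv' x] := by
      unfold invW
      rw [List.map_cons, List.reverse_cons]
      rfl
    have h2 : wX D [inv' x] = sX D (inv' x) := by simp [wX]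
    rw [h1, wX_append, ih, h2, wX_cons, sX_inv', _root_.mul_inv_rev]

theorem wX_rep (w : List (Letter m)) (n : ℕ) : wX D (List.replicate n w).flatten = (wX D w) ^ n := by
  induction n with
  | zero => rfl
  | succ n ih => rw [List.replicate_succ, List.flatten_cons, wX_append, ih, pow_succ']

theorem wX_powW (w : List (Letter m)) (n : ℤ) : wX D (powW w n) = (wX D w) ^ n := by
  rcases n with n | n
  · show wX D (List.replicate n w).flatten = _
    rw [wX_rep]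
    exact (zpow_natCast _ n).symm
  · show wX D (List.replicate (n+1) (invW w)).flatten = _
    rw [wX_rep, wX_invW, zpow_negSucc, inv_pow]

theorem wX_single (i : Fin (m - 1)) (n : ℤ) : wX D (powW [(true, i)] n) = (sX D (true, i)) ^ n := by
  rw [wX_powW]
  congr 1

/-- stability -/
def StE (i : ℕ) (W : Submodule K (R × K)) : Prop := ∀ v ∈ W, ((D.e i * v.1, 0) : R × K) ∈ W

/-- the points none of whose translates is stable -/
def NX : Set (XX K (R × K) (Fin m → Bool)) := 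
  {y | ∀ (w : List (Letter m)) (i : ℕ), i + 1 < m → ¬ StE D i (wX D w y).2}

theorem NX_word (w : List (Letter m)) (y : XX K (R × K) (Fin m → Bool)) (h : wX D w y ∈ NX D) : 
    y ∈ NX D := by
  intro w' i hi
  have h1 := h (w' ++ invW w) i hi
  have h2 : wX D (w' ++ invW w) (wX D w y) = wX D w' y := by
    rw [wX_append, wX_invW, Equiv.Perm.mul_apply]
    congr 1
    exact Equiv.symm_apply_apply (wX D w) y
  rwa [h2] at h1

theorem NX_zpow (i : Fin (m - 1)) (n : ℤ) (y : XX K (R × K) (Fin m → Bool)) 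
    (h : (sX D (true, i) ^ n) y ∈ NX D) : y ∈ NX D := by
  rw [← wX_single] at h
  exact NX_word D _ y h

theorem NX_bot (hm : 1 < m) (U : Fin m → Bool) : ((U, ⊥) : XX K (R × K) (Fin m → Bool)) ∉ NX D := by
  intro h
  apply h [] 0 (by omega)
  intro v hv
  rw [wX_nil] at hv ⊢
  have hv' : v = 0 := hv
  show ((D.e 0 * v.1, 0) : R × K) ∈ (⊥ : Submodule K (R × K))
  rw [hv', Submodule.mem_bot]
  exact Prod.ext (mul_zero _) rfl

theorem NX_good (hd : D.d ^ 2 - 1 ≠ 0) (i : ℕ) (hi : i + 2 < m) (y : XX K (R × K) (Fin m → Bool)) 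
    (hy : y ∈ NX D) : pr y.2 ∈ goodR D i := 
  pr_good D hd i hi y.2 (hy [] i (by omega))

theorem pr_left (hd : D.d ^ 2 - 1 ≠ 0) (i : ℕ) (hi : i + 2 < m) (y : XX K (R × K) (Fin m → Bool)) : 
    pr (sX D (lt i (by omega) true) y).2 = TT D hd i hi (gYi D.t_ne) (pr y.2) := by
  rw [sX_apply, TT_apply]
  show pr (y.2.map (gX D _ _ : (R × K) →ₗ[K] (R × K))) = _
  unfold gX
  rw [pr_map]
  have h : ∀ U : Submodule K R, act (D.s1 (lt i (by omega) true)) U = act (TgR D hd i hi (gYi D.t_ne)) U := 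
    fun U => act_congr_smul _ _ D.a D.a_ne (fun v => s1_left D hd i (by omega) v) U
  rw [h, h]

theorem pr_right (hd : D.d ^ 2 - 1 ≠ 0) (i : ℕ) (hi : i + 2 < m) (y : XX K (R × K) (Fin m → Bool)) : 
    pr (sX D (lt (i+1) hi true) y).2 = TT D hd i hi (gYj D.t_ne) (pr y.2) := by
  rw [sX_apply, TT_apply]
  show pr (y.2.map (gX D _ _ : (R × K) →ₗ[K] (R × K))) = _
  unfold gX
  rw [pr_map]
  have h : ∀ U : Submodule K R, act (D.s1 (lt (i+1) hi true)) U = act (TgR D hd i hi (gYj D.t_ne)) U := 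
    fun U => act_congr_smul _ _ D.a D.a_ne (fun v => s1_right D hd i hi v) U
  rw [h, h]

theorem goodR_inv (hd : D.d ^ 2 - 1 ≠ 0) (i : ℕ) (hi : i + 2 < m) (g : GL (Fin 2) K) (p : SS K R) 
    (hp : p ∈ goodR D i) : TT D hd i hi g p ∈ goodR D i := by
  by_contra h
  have h2 := TT_fix D hd i hi _ h g⁻¹
  have h3 : TT D hd i hi g⁻¹ (TT D hd i hi g p) = p := by
    rw [← Equiv.Perm.mul_apply, ← map_mul, inv_mul_cancel, map_one]; rfl
  rw [h3] at h2
  rw [← h2] at h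
  exact h hp

theorem goodR_inv' (hd : D.d ^ 2 - 1 ≠ 0) (i : ℕ) (hi : i + 2 < m) (g : GL (Fin 2) K) (p : SS K R) 
    (hp : TT D hd i hi g p ∈ goodR D i) : p ∈ goodR D i := by
  by_contra h
  rw [TT_fix D hd i hi p h g] at hp
  exact h hp

/-- orbits and near sets -/
theorem two_near (hd : D.d ^ 2 - 1 ≠ 0) (i : ℕ) (hi : i + 2 < m) (Q : SS K R → (Fin 2 → K)) 
    (hQ : ∀ p ∈ goodR D i, Q p ≠ 0 ∧ ∀ g : GL (Fin 2) K, ∃ c : K, c ≠ 0 ∧ 
      Q (TT D hd i hi g p) = c • ((g : Matrix (Fin 2) (Fin 2) K) *ᵥ Q p)) 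
    (σ : Equiv.Perm (XX K (R × K) (Fin m → Bool))) (g : GL (Fin 2) K) 
    (hσ : ∀ y, pr (σ y).2 = TT D hd i hi g (pr y.2)) (Near : (Fin 2 → K) → Prop) 
    (hsm : ∀ (q : Fin 2 → K) (c : K), c ≠ 0 → Near (c • q) → Near q) 
    (htwo : ∀ (q : Fin 2 → K) (n n' : ℤ), 
      Near (((g ^ n : GL (Fin 2) K) : Matrix (Fin 2) (Fin 2) K) *ᵥ q) → 
      Near (((g ^ n' : GL (Fin 2) K) : Matrix (Fin 2) (Fin 2) K) *ᵥ q) → n ≤ n' + 1) : 
    TwoVal σ {y | pr y.2 ∈ goodR D i ∧ Near (Q (pr y.2))} := by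
  intro y n n' hn hn'
  have key : ∀ k : ℤ, pr ((σ ^ k) y).2 = TT D hd i hi (g ^ k) (pr y.2) := by
    intro k
    have := semiconj_zpow (fun y : XX K (R × K) (Fin m → Bool) => pr y.2) σ (TT D hd i hi g) hσ k y
    rw [map_zpow]
    exact this
  have hgood : pr y.2 ∈ goodR D i := by
    have h1 := hn.1
    rw [key n] at h1
    exact goodR_inv' D hd i hi _ _ h1
  have h2 : ∀ k : ℤ, Near (Q (pr ((σ ^ k) y).2)) → 
      Near (((g ^ k : GL (Fin 2) K) : Matrix (Fin 2) (Fin 2) K) *ᵥ (Q (pr y.2))) := by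
    intro k hk
    rw [key k] at hk
    obtain ⟨c, hc0, hc⟩ := (hQ _ hgood).2 (g ^ k)
    rw [hc] at hk
    exact hsm _ c hc0 hk
  exact htwo _ n n' (h2 n hn.2) (h2 n' hn'.2)

end letters

/-- two steps at neighbouring places with spread distributions -/
def SiteU (m : ℕ) (ε : ℝ) (a a' : Fin (m - 1) × Law) : Prop := 
  ((a.1 : ℕ) + 1 = a'.1 ∨ (a'.1 : ℕ) + 1 = a.1) ∧ a.2.Spread ε ∧ a'.2.Spread ε

theorem site_norm [IsAlgClosed K] (D : TLD m K R) {Γ : Type} [LinearOrderedCommGroupWithZero Γ] 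
    (v : Valuation K Γ) (hv : v D.t < 1) (ε : ℝ) (hε : 0 ≤ ε) (a a' : Fin (m - 1) × Law) 
    (hs : SiteU m ε a a') (f : L2 (XX K (R × K) (Fin m → Bool))) (hf : ∀ x, x ∉ NX D → f x = 0) : 
    ‖av (sX D (true, a.1)) a.2 (av (sX D (true, a'.1)) a'.2 f)‖ ≤ √(8 * ε) * ‖f‖ := by
  have hd : D.d ^ 2 - 1 ≠ 0 := D.d_ne v hv
  obtain ⟨hii, h1, h2⟩ := hs
  obtain ⟨i, hi, hcase⟩ : ∃ (i : ℕ) (hi : i + 2 < m), 
      (((true, a.1) : Letter m) = lt i (by omega) true ∧ ((true, a'.1) : Letter m) = lt (i+1) hi true) ∨ 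
      (((true, a.1) : Letter m) = lt (i+1) hi true ∧ ((true, a'.1) : Letter m) = lt i (by omega) true) := by
    rcases hii with h | h
    · refine ⟨a.1, by have := a'.1.2; omega, Or.inl ⟨rfl, ?_⟩⟩
      exact Prod.ext rfl (Fin.ext h.symm)
    · refine ⟨a'.1, by have := a.1.2; omega, Or.inr ⟨?_, rfl⟩⟩
      exact Prod.ext rfl (Fin.ext h.symm)
  obtain ⟨Q, hQ⟩ := equi (TT D hd i hi) (goodR D i) (fun g p hp => goodR_inv D hd i hi g p hp) 
    (fun p hp => exists_qR D hd i hi p hp)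
  have tI := two_near D hd i hi Q hQ (sX D (lt i (by omega) true)) (gYi D.t_ne) (pr_left D hd i hi) 
    (NearI v D.t) (NearI_smul v) (fun q n n' => nearI_two v D.t_ne hv q n n')
  have tJ := two_near D hd i hi Q hQ (sX D (lt (i+1) hi true)) (gYj D.t_ne) (pr_right D hd i hi) 
    (NearJ v D.t) (NearJ_smul v) (fun q n n' => nearJ_two v D.t_ne hv q n n')
  have hcov : ∀ y, y ∈ NX D → (pr y.2 ∈ goodR D i ∧ NearI v D.t (Q (pr y.2))) ∨ 
      (pr y.2 ∈ goodR D i ∧ NearJ v D.t (Q (pr y.2))) := by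
    intro y hy
    have hg := NX_good D hd i hi y hy
    rcases cover v D.t_ne hv (Q (pr y.2)) (hQ _ hg).1 with h | h
    · exact Or.inl ⟨hg, h⟩
    · exact Or.inr ⟨hg, h⟩
  rcases hcase with ⟨e1, e2⟩ | ⟨e1, e2⟩
  · rw [← e1] at tI
    rw [← e2] at tJ
    exact pair_norm _ _ _ _ (NX D) tI tJ hcov (fun n x hx => NX_zpow D a'.1 n x hx) a.2 a'.2 ε hε h1 h2 f hf
  · rw [← e2] at tI
    rw [← e1] at tJ
    exact pair_norm _ _ _ _ (NX D) tJ tI (fun y hy => (hcov y hy).symm) 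
      (fun n x hx => NX_zpow D a'.1 n x hx) a.2 a'.2 ε hε h1 h2 f hf

end Pool.Agent.Y463.UT
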