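import Mathlib

/-!
# The two places of a pair of neighbouring crossings and a valuation

`Yi`, `Yj` are the matrices of two neighbouring crossings in a two dimensional representation.  With respect
to a valuation with `v(t) < 1` every vector is near one of the two places, and the orbits of the
powers of `Yi` meet the set of the vectors near the place of `Yi` in at most two consecutive points.
-/

set_option autoImplicit false

namespace Pool.Agent.Y463.UT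

open Matrix

variable {K : Type} [Field K]

/-- the matrix of the left crossing, `d = -t - t⁻¹` -/
noncomputable def Yi (t : K) : Matrix (Fin 2) (Fin 2) K := !![-(t⁻¹) ^ 2, t⁻¹; 0, 1]

/-- the matrix of the right crossing -/
noncomputable def Yj (t : K) : Matrix (Fin 2) (Fin 2) K := !![1, 0; t⁻¹, -(t⁻¹) ^ 2]

theorem Yi_det {t : K} (ht : t ≠ 0) : (Yi t).det ≠ 0 := by
  unfold Yi
  rw [Matrix.det_fin_two_of]
  have : -(t⁻¹) ^ 2 * 1 - t⁻¹ * 0 = -(t⁻¹) ^ 2 := by ring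
  rw [this]
  exact neg_ne_zero.2 (pow_ne_zero 2 (inv_ne_zero ht))

theorem Yj_det {t : K} (ht : t ≠ 0) : (Yj t).det ≠ 0 := by
  unfold Yj
  rw [Matrix.det_fin_two_of]
  have : 1 * -(t⁻¹) ^ 2 - 0 * t⁻¹ = -(t⁻¹) ^ 2 := by ring
  rw [this]
  exact neg_ne_zero.2 (pow_ne_zero 2 (inv_ne_zero ht))

noncomputable def gYi {t : K} (ht : t ≠ 0) : GL (Fin 2) K := 
  Matrix.GeneralLinearGroup.mkOfDetNeZero (Yi t) (Yi_det ht)

noncomputable def gYj {t : K} (ht : t ≠ 0) : GL (Fin 2) K := 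
  Matrix.GeneralLinearGroup.mkOfDetNeZero (Yj t) (Yj_det ht)

/-- a matrix which fixes a linear form and multiplies another one by `lam` -/
theorem zpow_forms (g : GL (Fin 2) K) (f h : (Fin 2 → K) → K) (lam : K) (hl : lam ≠ 0) 
    (hf : ∀ x, f ((g : Matrix (Fin 2) (Fin 2) K) *ᵥ x) = f x) 
    (hh : ∀ x, h ((g : Matrix (Fin 2) (Fin 2) K) *ᵥ x) = lam * h x) (n : ℤ) : 
    ∀ x, f (((g ^ n : GL (Fin 2) K) : Matrix (Fin 2) (Fin 2) K) *ᵥ x) = f x ∧ 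
      h (((g ^ n : GL (Fin 2) K) : Matrix (Fin 2) (Fin 2) K) *ᵥ x) = lam ^ n * h x := by
  have hmul : ∀ (a b : GL (Fin 2) K) (x : Fin 2 → K), 
      ((a * b : GL (Fin 2) K) : Matrix (Fin 2) (Fin 2) K) *ᵥ x = 
        (a : Matrix (Fin 2) (Fin 2) K) *ᵥ ((b : Matrix (Fin 2) (Fin 2) K) *ᵥ x) := by
    intro a b x
    rw [Matrix.mulVec_mulVec]; rfl
  have hinv : ∀ x : Fin 2 → K, (g : Matrix (Fin 2) (Fin 2) K) *ᵥ 
      (((g⁻¹ : GL (Fin 2) K) : Matrix (Fin 2) (Fin 2) K) *ᵥ x) = x := by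
    intro x
    rw [← hmul, mul_inv_cancel]
    exact Matrix.one_mulVec x
  induction n using Int.induction_on with
  | zero =>
    intro x
    rw [zpow_zero, zpow_zero, one_mul]
    have : ((1 : GL (Fin 2) K) : Matrix (Fin 2) (Fin 2) K) *ᵥ x = x := Matrix.one_mulVec x
    rw [this]
    exact ⟨rfl, rfl⟩
  | succ n ih =>
    intro x
    rw [_root_.zpow_add_one, hmul]
    obtain ⟨h1, h2⟩ := ih ((g : Matrix (Fin 2) (Fin 2) K) *ᵥ x)
    rw [h1, h2, hf, hh, zpow_add_one₀ hl]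
    exact ⟨rfl, by ring⟩
  | pred n ih =>
    intro x
    rw [_root_.zpow_sub_one, hmul]
    obtain ⟨h1, h2⟩ := ih (((g⁻¹ : GL (Fin 2) K) : Matrix (Fin 2) (Fin 2) K) *ᵥ x)
    have h3 := hf (((g⁻¹ : GL (Fin 2) K) : Matrix (Fin 2) (Fin 2) K) *ᵥ x)
    have h4 := hh (((g⁻¹ : GL (Fin 2) K) : Matrix (Fin 2) (Fin 2) K) *ᵥ x)
    rw [hinv] at h3 h4
    rw [h1, h2, ← h3, h4, zpow_sub_one₀ hl]
    refine ⟨rfl, ?_⟩
    field_simp

variable {Γ : Type} [LinearOrderedCommGroupWithZero Γ] (v : Valuation K Γ) {t : K}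

/-- near the first place: `v(t) v(y) ≤ v(x + y/d) ≤ v(t)⁻¹ v(y)`, `d = -t - t⁻¹` -/
def NearI (t : K) (q : Fin 2 → K) : Prop := 
  v t * v (q 1) ≤ v (q 0 + q 1 * (-t - t⁻¹)⁻¹) ∧ v t * v (q 0 + q 1 * (-t - t⁻¹)⁻¹) ≤ v (q 1) ∧ q ≠ 0

/-- near the second place -/
def NearJ (t : K) (q : Fin 2 → K) : Prop := 
  v t * v (q 0) ≤ v (q 1 + q 0 * (-t - t⁻¹)⁻¹) ∧ v t * v (q 1 + q 0 * (-t - t⁻¹)⁻¹) ≤ v (q 0) ∧ q ≠ 0

theorem NearI_smul (q : Fin 2 → K) (c : K) (hc : c ≠ 0) (h : NearI v t (c • q)) : NearI v t q := by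
  obtain ⟨h1, h2, h3⟩ := h
  have hc' : v c ≠ 0 := (Valuation.ne_zero_iff v).2 hc
  have hpos : 0 < v c := zero_lt_iff.2 hc'
  simp only [Pi.smul_apply, smul_eq_mul] at h1 h2
  have e1 : c * q 0 + c * q 1 * (-t - t⁻¹)⁻¹ = c * (q 0 + q 1 * (-t - t⁻¹)⁻¹) := by ring
  rw [e1, map_mul, map_mul] at h1 h2
  refine ⟨?_, ?_, fun h => h3 (by rw [h, smul_zero])⟩
  · rw [mul_left_comm] at h1
    exact (mul_le_mul_iff_right₀ hpos).1 h1
  · rw [mul_left_comm] at h2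
    exact (mul_le_mul_iff_right₀ hpos).1 h2

theorem NearJ_smul (q : Fin 2 → K) (c : K) (hc : c ≠ 0) (h : NearJ v t (c • q)) : NearJ v t q := by
  obtain ⟨h1, h2, h3⟩ := h
  have hc' : v c ≠ 0 := (Valuation.ne_zero_iff v).2 hc
  have hpos : 0 < v c := zero_lt_iff.2 hc'
  simp only [Pi.smul_apply, smul_eq_mul] at h1 h2
  have e1 : c * q 1 + c * q 0 * (-t - t⁻¹)⁻¹ = c * (q 1 + q 0 * (-t - t⁻¹)⁻¹) := by ring
  rw [e1, map_mul, map_mul] at h1 h2
  refine ⟨?_, ?_, fun h => h3 (by rw [h, smul_zero])⟩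
  · rw [mul_left_comm] at h1
    exact (mul_le_mul_iff_right₀ hpos).1 h1
  · rw [mul_left_comm] at h2
    exact (mul_le_mul_iff_right₀ hpos).1 h2

theorem val_d (ht : t ≠ 0) (h1 : v t < 1) : v (-t - t⁻¹)⁻¹ = v t := by
  have h0 : v t ≠ 0 := (Valuation.ne_zero_iff v).2 ht
  have hinv : v t⁻¹ = (v t)⁻¹ := map_inv₀ v t
  have h2 : 1 < (v t)⁻¹ := (one_lt_inv₀ (zero_lt_iff.2 h0)).2 h1
  have h3 : v (-t) < v (t⁻¹) := by
    rw [Valuation.map_neg, hinv]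
    exact h1.trans h2
  have h4 : v (-t - t⁻¹) = v (t⁻¹) := Valuation.map_sub_eq_of_lt_right v h3
  rw [map_inv₀, h4, hinv, inv_inv]

/-- the key estimate of the two values -/
theorem two_aux {a b : Γ} (τ : Γ) (hτ0 : 0 < τ) (hτ : τ < 1) (ha : a ≠ 0) (lam : Γ) 
    (hlam : lam = (τ⁻¹) ^ 2) (n n' : ℤ) (h1 : τ * (lam ^ n * b) ≤ a) (h2 : τ * a ≤ lam ^ n' * b) : 
    n ≤ n' + 1 := by
  by_contra hcon
  have hn : n' + 2 ≤ n := by omega
  have hτ0' : τ ≠ 0 := hτ0.ne'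
  have hlam1 : 1 < lam := by
    rw [hlam]
    exact one_lt_pow₀ ((one_lt_inv₀ hτ0).2 hτ) two_ne_zero
  have hlam0 : lam ≠ 0 := (zero_lt_one.trans hlam1).ne'
  have h3 : lam ^ n' * b * lam ^ 2 ≤ lam ^ n * b := by
    have e1 : lam ^ n' * b * lam ^ 2 = lam ^ (n' + 2) * b := by
      rw [zpow_add₀ hlam0]
      have : lam ^ (2:ℤ) = lam ^ 2 := by norm_cast
      rw [this, mul_right_comm]
    rw [e1]
    exact mul_le_mul_left (zpow_le_zpow_right₀ hlam1.le hn) b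
  have h4 : τ * (τ * a * lam ^ 2) ≤ a := by
    calc τ * (τ * a * lam ^ 2) ≤ τ * (lam ^ n' * b * lam ^ 2) := 
          mul_le_mul_right (mul_le_mul_left h2 (lam ^ 2)) τ
      _ ≤ τ * (lam ^ n * b) := mul_le_mul_right h3 τ
      _ ≤ a := h1
  have h5 : τ * (τ * a * lam ^ 2) = a * (τ⁻¹) ^ 2 := by
    rw [hlam]
    field_simp
  rw [h5] at h4
  have h6 : a * (τ⁻¹) ^ 2 ≤ a * 1 := by rwa [mul_one]
  have h7 : (τ⁻¹) ^ 2 ≤ 1 := (mul_le_mul_iff_right₀ (zero_lt_iff.2 ha)).1 h6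
  rw [← hlam] at h7
  exact absurd h7 (not_le.2 hlam1)

theorem dd_ne (ht : t ≠ 0) (h1 : v t < 1) : -t - t⁻¹ ≠ 0 := by
  intro h
  have h2 := val_d v ht h1
  rw [h, _root_.inv_zero, map_zero] at h2
  exact ht ((Valuation.zero_iff v).1 h2.symm)

theorem nearI_two (ht : t ≠ 0) (h1 : v t < 1) (q : Fin 2 → K) (n n' : ℤ) 
    (hn : NearI v t (((gYi ht ^ n : GL (Fin 2) K) : Matrix (Fin 2) (Fin 2) K) *ᵥ q)) 
    (hn' : NearI v t (((gYi ht ^ n' : GL (Fin 2) K) : Matrix (Fin 2) (Fin 2) K) *ᵥ q)) : n ≤ n' + 1 := by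
  have hdd := dd_ne v ht h1
  have hlam : -(t⁻¹) ^ 2 ≠ 0 := neg_ne_zero.2 (pow_ne_zero 2 (inv_ne_zero ht))
  have key := zpow_forms (gYi ht) (fun x => x 1) (fun x => x 0 + x 1 * (-t - t⁻¹)⁻¹) (-(t⁻¹) ^ 2) hlam 
    (by
      intro x
      show ((Yi t) *ᵥ x) 1 = x 1
      simp [Yi, Matrix.mulVec, dotProduct, Fin.sum_univ_two])
    (by
      intro x
      show ((Yi t) *ᵥ x) 0 + ((Yi t) *ᵥ x) 1 * (-t - t⁻¹)⁻¹ = _
      simp only [Yi, Matrix.mulVec, dotProduct, Fin.sum_univ_two, Matrix.of_apply, Matrix.cons_val', 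
        Matrix.cons_val_zero, Matrix.cons_val_one, Matrix.cons_val_fin_one]
      have e1 : t⁻¹ = (-(t⁻¹) ^ 2 - 1) * (-t - t⁻¹)⁻¹ := by
        rw [eq_mul_inv_iff_mul_eq₀ hdd]
        field_simp
        ring
      linear_combination (x 1) * e1)
  obtain ⟨a1, a2⟩ := key n q
  obtain ⟨b1, b2⟩ := key n' q
  unfold NearI at hn hn'
  rw [a2, a1] at hn
  rw [b2, b1] at hn'
  obtain ⟨n1, n2, n3⟩ := hn
  obtain ⟨m1, m2, m3⟩ := hn'
  have hq1 : q 1 ≠ 0 := by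
    intro h
    rw [h, map_zero] at n2 m2
    apply m3
    have h2 : v t ≠ 0 := (Valuation.ne_zero_iff v).2 ht
    have h3 := le_antisymm m2 zero_le
    rw [mul_eq_zero] at h3
    have h4 := (Valuation.zero_iff v).1 (h3.resolve_left h2)
    rw [b1, h] at b2
    rw [← b2, zero_mul, add_zero] at h4
    funext j
    fin_cases j
    · exact h4
    · exact b1.trans h
  have hval : ∀ k : ℤ, v ((-(t⁻¹) ^ 2) ^ k * (q 0 + q 1 * (-t - t⁻¹)⁻¹)) = 
      (((v t)⁻¹) ^ 2) ^ k * v (q 0 + q 1 * (-t - t⁻¹)⁻¹) := by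
    intro k
    rw [map_mul, map_zpow₀, Valuation.map_neg, map_pow, map_inv₀]
  rw [hval] at n1 n2 m1 m2
  exact two_aux (v t) (zero_lt_iff.2 ((Valuation.ne_zero_iff v).2 ht)) h1 
    ((Valuation.ne_zero_iff v).2 hq1) _ rfl n n' n2 m1

theorem nearJ_two (ht : t ≠ 0) (h1 : v t < 1) (q : Fin 2 → K) (n n' : ℤ) 
    (hn : NearJ v t (((gYj ht ^ n : GL (Fin 2) K) : Matrix (Fin 2) (Fin 2) K) *ᵥ q)) 
    (hn' : NearJ v t (((gYj ht ^ n' : GL (Fin 2) K) : Matrix (Fin 2) (Fin 2) K) *ᵥ q)) : n ≤ n' + 1 := by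
  have hdd := dd_ne v ht h1
  have hlam : -(t⁻¹) ^ 2 ≠ 0 := neg_ne_zero.2 (pow_ne_zero 2 (inv_ne_zero ht))
  have key := zpow_forms (gYj ht) (fun x => x 0) (fun x => x 1 + x 0 * (-t - t⁻¹)⁻¹) (-(t⁻¹) ^ 2) hlam 
    (by
      intro x
      show ((Yj t) *ᵥ x) 0 = x 0
      simp [Yj, Matrix.mulVec, dotProduct, Fin.sum_univ_two])
    (by
      intro x
      show ((Yj t) *ᵥ x) 1 + ((Yj t) *ᵥ x) 0 * (-t - t⁻¹)⁻¹ = _
      simp only [Yj, Matrix.mulVec, dotProduct, Fin.sum_univ_two, Matrix.of_apply, Matrix.cons_val', 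
        Matrix.cons_val_zero, Matrix.cons_val_one, Matrix.cons_val_fin_one]
      have e1 : t⁻¹ = (-(t⁻¹) ^ 2 - 1) * (-t - t⁻¹)⁻¹ := by
        rw [eq_mul_inv_iff_mul_eq₀ hdd]
        field_simp
        ring
      linear_combination (x 0) * e1)
  obtain ⟨a1, a2⟩ := key n q
  obtain ⟨b1, b2⟩ := key n' q
  unfold NearJ at hn hn'
  rw [a2, a1] at hn
  rw [b2, b1] at hn'
  obtain ⟨n1, n2, n3⟩ := hn
  obtain ⟨m1, m2, m3⟩ := hn'
  have hq1 : q 0 ≠ 0 := by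
    intro h
    rw [h, map_zero] at n2 m2
    apply m3
    have h2 : v t ≠ 0 := (Valuation.ne_zero_iff v).2 ht
    have h3 := le_antisymm m2 zero_le
    rw [mul_eq_zero] at h3
    have h4 := (Valuation.zero_iff v).1 (h3.resolve_left h2)
    rw [b1, h] at b2
    rw [← b2, zero_mul, add_zero] at h4
    funext j
    fin_cases j
    · exact b1.trans h
    · exact h4
  have hval : ∀ k : ℤ, v ((-(t⁻¹) ^ 2) ^ k * (q 1 + q 0 * (-t - t⁻¹)⁻¹)) = 
      (((v t)⁻¹) ^ 2) ^ k * v (q 1 + q 0 * (-t - t⁻¹)⁻¹) := by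
    intro k
    rw [map_mul, map_zpow₀, Valuation.map_neg, map_pow, map_inv₀]
  rw [hval] at n1 n2 m1 m2
  exact two_aux (v t) (zero_lt_iff.2 ((Valuation.ne_zero_iff v).2 ht)) h1 
    ((Valuation.ne_zero_iff v).2 hq1) _ rfl n n' n2 m1

/-- the estimates for one order of the coordinates -/
theorem cover_aux (ht : t ≠ 0) (h1 : v t < 1) (x y : K) (hy : y ≠ 0) (hxy : v x ≤ v y) : 
    (v t * v y ≤ v (x + y * (-t - t⁻¹)⁻¹) ∧ v t * v (x + y * (-t - t⁻¹)⁻¹) ≤ v y) ∨ 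
    (v t * v x ≤ v (y + x * (-t - t⁻¹)⁻¹) ∧ v t * v (y + x * (-t - t⁻¹)⁻¹) ≤ v x) := by
  have ht0 : 0 < v t := zero_lt_iff.2 ((Valuation.ne_zero_iff v).2 ht)
  have hy0 : 0 < v y := zero_lt_iff.2 ((Valuation.ne_zero_iff v).2 hy)
  have hyd : v (y * (-t - t⁻¹)⁻¹) = v t * v y := by rw [map_mul, val_d v ht h1, mul_comm]
  have hlt : v t * v y < v y := by
    calc v t * v y < 1 * v y := (mul_lt_mul_iff_left₀ hy0).2 h1
      _ = v y := one_mul _
  rcases lt_trichotomy (v x) (v t * v y) with h | h | h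
  · left
    have e1 : v (x + y * (-t - t⁻¹)⁻¹) = v t * v y := by
      rw [Valuation.map_add_eq_of_lt_right v (by rw [hyd]; exact h), hyd]
    rw [e1]
    refine ⟨le_rfl, ?_⟩
    calc v t * (v t * v y) ≤ 1 * (v t * v y) := mul_le_mul_left h1.le _
      _ = v t * v y := one_mul _
      _ ≤ v y := hlt.le
  · right
    have hxd : v (x * (-t - t⁻¹)⁻¹) < v y := by
      rw [map_mul, val_d v ht h1, h]
      calc v t * v y * v t ≤ v t * v y * 1 := mul_le_mul_right h1.le _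
        _ = v t * v y := mul_one _
        _ < v y := hlt
    have e1 : v (y + x * (-t - t⁻¹)⁻¹) = v y := Valuation.map_add_eq_of_lt_left v hxd
    rw [e1, h]
    refine ⟨?_, le_rfl⟩
    calc v t * (v t * v y) ≤ 1 * (v t * v y) := mul_le_mul_left h1.le _
      _ = v t * v y := one_mul _
      _ ≤ v y := hlt.le
  · left
    have e1 : v (x + y * (-t - t⁻¹)⁻¹) = v x := Valuation.map_add_eq_of_lt_left v (by rw [hyd]; exact h)
    rw [e1]
    refine ⟨h.le, ?_⟩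
    calc v t * v x ≤ 1 * v x := mul_le_mul_left h1.le _
      _ = v x := one_mul _
      _ ≤ v y := hxy

theorem cover (ht : t ≠ 0) (h1 : v t < 1) (q : Fin 2 → K) (hq : q ≠ 0) : 
    NearI v t q ∨ NearJ v t q := by
  rcases le_total (v (q 0)) (v (q 1)) with h | h
  · have hy : q 1 ≠ 0 := by
      intro h2
      rw [h2, map_zero] at h
      have h3 := (Valuation.zero_iff v).1 (le_antisymm h zero_le)
      apply hq
      funext j
      fin_cases j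
      · exact h3
      · exact h2
    rcases cover_aux v ht h1 (q 0) (q 1) hy h with h2 | h2
    · exact Or.inl ⟨h2.1, h2.2, hq⟩
    · exact Or.inr ⟨h2.1, h2.2, hq⟩
  · have hy : q 0 ≠ 0 := by
      intro h2
      rw [h2, map_zero] at h
      have h3 := (Valuation.zero_iff v).1 (le_antisymm h zero_le)
      apply hq
      funext j
      fin_cases j
      · exact h2
      · exact h3
    rcases cover_aux v ht h1 (q 1) (q 0) hy h with h2 | h2
    · exact Or.inr ⟨h2.1, h2.2, hq⟩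
    · exact Or.inl ⟨h2.1, h2.2, hq⟩

end Pool.Agent.Y463.UT
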