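import Pool.Agent.Y463.MP.Gap
import Pool.Agent.Y463.UT.Near

/-!
# Pairs of subspaces of the Temperley–Lieb algebra and the action of `GL₂`
-/

set_option autoImplicit false

namespace Pool.Agent.Y463.UT

open Matrix Pool.Agent.H891R2.Jones Pool.Agent.W639.RB Pool.Agent.Y463.MP 
open Pool.Agent.W705.JR (idx_lt)

variable {m : ℕ} {K R : Type} [Field K] [Ring R] [Algebra K R]

/-- pairs of subspaces -/
abbrev SS (K R : Type) [Field K] [Ring R] [Algebra K R] : Type := Submodule K R × Submodule K R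

/-- a permutation acts on pairs -/
def pairH (α : Type) : Equiv.Perm α →* Equiv.Perm (α × α) where
  toFun σ := Equiv.prodCongr σ σ
  map_one' := by ext x <;> rfl
  map_mul' σ τ := by ext x <;> rfl

/-- permutations which correspond to each other under a map -/
theorem semiconj_zpow {X Z : Type*} (f : X → Z) (σ : Equiv.Perm X) (τ : Equiv.Perm Z) 
    (h : ∀ x, f (σ x) = τ (f x)) (n : ℤ) : ∀ x, f ((σ ^ n) x) = (τ ^ n) (f x) := by
  have hinv : ∀ x, f (σ⁻¹ x) = τ⁻¹ (f x) := by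
    intro x
    have h1 := h (σ⁻¹ x)
    have h2 : σ (σ⁻¹ x) = x := Equiv.apply_symm_apply σ x
    rw [h2] at h1
    rw [h1]
    exact (Equiv.symm_apply_apply τ _).symm
  induction n using Int.induction_on with
  | zero => intro x; rw [zpow_zero, zpow_zero]; rfl
  | succ n ih =>
    intro x
    rw [_root_.zpow_add_one, _root_.zpow_add_one, Equiv.Perm.mul_apply, Equiv.Perm.mul_apply, ih, h]
  | pred n ih =>
    intro x
    rw [_root_.zpow_sub_one, _root_.zpow_sub_one, Equiv.Perm.mul_apply, Equiv.Perm.mul_apply, ih, hinv]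

variable (D : TLD m K R)

/-- left multiplication by the image of a matrix -/
noncomputable def TR (i : ℕ) (Y : Matrix (Fin 2) (Fin 2) K) : Module.End K R :=
  LinearMap.mulLeft K (th D.d (D.e i) (D.e (i+1)) Y)

theorem TR_one (i : ℕ) : TR D i 1 = 1 := by
  unfold TR
  rw [th_one, LinearMap.mulLeft_one]
  rfl

theorem TR_mul (hd : D.d ^ 2 - 1 ≠ 0) (i : ℕ) (hi : i + 2 < m) (Y Z : Matrix (Fin 2) (Fin 2) K) : 
    TR D i (Y * Z) = TR D i Y * TR D i Z := by
  unfold TR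
  rw [th_mul hd (D.e_TL2 i hi), LinearMap.mulLeft_mul]
  rfl

/-- the group `GL_2` acts on the algebra -/
noncomputable def TgR (hd : D.d ^ 2 - 1 ≠ 0) (i : ℕ) (hi : i + 2 < m) : 
    GL (Fin 2) K →* (R ≃ₗ[K] R) :=
  (LinearMap.GeneralLinearGroup.generalLinearEquiv K R).toMonoidHom.comp 
    (Units.map { toFun := TR D i, map_one' := TR_one D i, map_mul' := TR_mul D hd i hi })

theorem TgR_apply (hd : D.d ^ 2 - 1 ≠ 0) (i : ℕ) (hi : i + 2 < m) (Y : GL (Fin 2) K) (v : R) : 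
    TgR D hd i hi Y v = th D.d (D.e i) (D.e (i+1)) (Y : Matrix (Fin 2) (Fin 2) K) * v := rfl

/-- the action on pairs of subspaces -/
noncomputable def TT (hd : D.d ^ 2 - 1 ≠ 0) (i : ℕ) (hi : i + 2 < m) : 
    GL (Fin 2) K →* Equiv.Perm (SS K R) := 
  (pairH (Submodule K R)).comp ((actH K R).comp (TgR D hd i hi))

theorem TT_apply (hd : D.d ^ 2 - 1 ≠ 0) (i : ℕ) (hi : i + 2 < m) (g : GL (Fin 2) K) (p : SS K R) : 
    TT D hd i hi g p = (act (TgR D hd i hi g) p.1, act (TgR D hd i hi g) p.2) := rfl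

/-- stability under the two generators -/
def StR (i : ℕ) (U : Submodule K R) : Prop := (∀ r ∈ U, D.e i * r ∈ U) ∧ (∀ r ∈ U, D.e (i+1) * r ∈ U)

/-- the good pairs -/
def goodR (i : ℕ) : Set (SS K R) := {p | ¬ (StR D i p.1 ∧ StR D i p.2)}

theorem StR_io (i : ℕ) (U : Submodule K R) (hU : StR D i U) (Y : Matrix (Fin 2) (Fin 2) K) (r : R) 
    (hr : r ∈ U) : io D.d (D.e i) (D.e (i+1)) Y * r ∈ U := by
  rw [io_apply]
  simp only [smul_mul_assoc, add_mul, mul_assoc]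
  refine U.smul_mem _ (U.add_mem (U.add_mem (U.add_mem ?_ ?_) ?_) ?_)
  · exact U.smul_mem _ (hU.1 _ hr)
  · exact U.smul_mem _ (hU.1 _ (hU.2 _ hr))
  · exact U.smul_mem _ (hU.2 _ hr)
  · exact U.smul_mem _ (hU.2 _ (hU.1 _ hr))

theorem TgR_eq (hd : D.d ^ 2 - 1 ≠ 0) (i : ℕ) (hi : i + 2 < m) (Y : GL (Fin 2) K) (v : R) : 
    TgR D hd i hi Y v = v + io D.d (D.e i) (D.e (i+1)) ((Y : Matrix (Fin 2) (Fin 2) K) - 1) * v := by
  rw [TgR_apply]
  unfold th
  rw [add_mul, one_mul]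

theorem TgR_fix (hd : D.d ^ 2 - 1 ≠ 0) (i : ℕ) (hi : i + 2 < m) (U : Submodule K R) (hU : StR D i U) 
    (g : GL (Fin 2) K) : act (TgR D hd i hi g) U = U := by
  have h1 : ∀ g : GL (Fin 2) K, ∀ v ∈ U, TgR D hd i hi g v ∈ U := by
    intro g v hv
    rw [TgR_eq]
    exact U.add_mem hv (StR_io D i U hU _ v hv)
  apply Submodule.ext
  intro v
  show v ∈ U.map (TgR D hd i hi g : R →ₗ[K] R) ↔ v ∈ U
  rw [Submodule.mem_map]
  constructor
  · rintro ⟨w, hw, rfl⟩; exact h1 g w hw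
  · intro hv
    refine ⟨TgR D hd i hi g⁻¹ v, h1 _ v hv, ?_⟩
    show TgR D hd i hi g (TgR D hd i hi g⁻¹ v) = v
    have : TgR D hd i hi g (TgR D hd i hi g⁻¹ v) = (TgR D hd i hi g * TgR D hd i hi g⁻¹) v := rfl
    rw [this, ← map_mul, mul_inv_cancel, map_one]; rfl

theorem TT_fix (hd : D.d ^ 2 - 1 ≠ 0) (i : ℕ) (hi : i + 2 < m) (p : SS K R) (hp : p ∉ goodR D i) 
    (g : GL (Fin 2) K) : TT D hd i hi g p = p := by
  unfold goodR at hp
  rw [Set.mem_setOf_eq, not_not] at hp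
  rw [TT_apply, TgR_fix D hd i hi _ hp.1, TgR_fix D hd i hi _ hp.2]

/-- the algebra of the matrices preserving both subspaces -/
def algR (i : ℕ) (p : SS K R) : Submodule K (Matrix (Fin 2) (Fin 2) K) where
  carrier := {Y | (∀ v ∈ p.1, io D.d (D.e i) (D.e (i+1)) Y * v ∈ p.1) ∧ 
    (∀ v ∈ p.2, io D.d (D.e i) (D.e (i+1)) Y * v ∈ p.2)}
  add_mem' hY hZ := by
    refine ⟨fun v hv => ?_, fun v hv => ?_⟩
    · rw [map_add, add_mul]; exact p.1.add_mem (hY.1 v hv) (hZ.1 v hv)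
    · rw [map_add, add_mul]; exact p.2.add_mem (hY.2 v hv) (hZ.2 v hv)
  zero_mem' := by
    refine ⟨fun v hv => ?_, fun v hv => ?_⟩
    · rw [map_zero, zero_mul]; exact p.1.zero_mem
    · rw [map_zero, zero_mul]; exact p.2.zero_mem
  smul_mem' c Y hY := by
    refine ⟨fun v hv => ?_, fun v hv => ?_⟩
    · rw [map_smul, smul_mul_assoc]; exact p.1.smul_mem _ (hY.1 v hv)
    · rw [map_smul, smul_mul_assoc]; exact p.2.smul_mem _ (hY.2 v hv)

theorem io_left (hd : D.d ^ 2 - 1 ≠ 0) (i : ℕ) : 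
    io D.d (D.e i) (D.e (i+1)) !![D.d, 1; 0, 0] = D.e i := by
  rw [io_eq hd 1 0 0 0]
  · simp
  all_goals
    simp only [Matrix.of_apply, Matrix.cons_val', Matrix.cons_val_zero, Matrix.cons_val_one, 
      Matrix.cons_val_fin_one]
    ring

theorem io_right (hd : D.d ^ 2 - 1 ≠ 0) (i : ℕ) : 
    io D.d (D.e i) (D.e (i+1)) !![0, 0; 1, D.d] = D.e (i+1) := by
  rw [io_eq hd 0 0 1 0]
  · simp
  all_goals
    simp only [Matrix.of_apply, Matrix.cons_val', Matrix.cons_val_zero, Matrix.cons_val_one, 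
      Matrix.cons_val_fin_one]
    ring

theorem exists_qR [IsAlgClosed K] (hd : D.d ^ 2 - 1 ≠ 0) (i : ℕ) (hi : i + 2 < m) 
    (p : SS K R) (hp : p ∈ goodR D i) : 
    ∃ q : Fin 2 → K, q ≠ 0 ∧ ∀ g : GL (Fin 2) K, TT D hd i hi g p = p → 
      ∃ c : K, (g : Matrix (Fin 2) (Fin 2) K) *ᵥ q = c • q := by
  rcases alg_or_eigen (algR D i p) (fun X hX Y hY => by
    refine ⟨fun v hv => ?_, fun v hv => ?_⟩
    · rw [io_mul hd (D.e_TL2 i hi), mul_assoc]; exact hX.1 _ (hY.1 v hv)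
    · rw [io_mul hd (D.e_TL2 i hi), mul_assoc]; exact hX.2 _ (hY.2 v hv)) with h1 | ⟨q, hq0, hq⟩
  · exfalso
    apply hp
    have h2 : ∀ Y : Matrix (Fin 2) (Fin 2) K, Y ∈ algR D i p := by
      intro Y
      rw [h1]; trivial
    have h3 := h2 !![D.d, 1; 0, 0]
    have h4 := h2 !![0, 0; 1, D.d]
    refine ⟨⟨fun r hr => ?_, fun r hr => ?_⟩, ⟨fun r hr => ?_, fun r hr => ?_⟩⟩
    · have := h3.1 r hr
      rwa [io_left D hd] at this
    · have := h4.1 r hr
      rwa [io_right D hd] at this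
    · have := h3.2 r hr
      rwa [io_left D hd] at this
    · have := h4.2 r hr
      rwa [io_right D hd] at this
  · refine ⟨q, hq0, fun g hg => ?_⟩
    rw [TT_apply] at hg
    have hg1 : act (TgR D hd i hi g) p.1 = p.1 := congrArg Prod.fst hg
    have hg2 : act (TgR D hd i hi g) p.2 = p.2 := congrArg Prod.snd hg
    have key : ∀ U : Submodule K R, act (TgR D hd i hi g) U = U → ∀ v ∈ U, 
        io D.d (D.e i) (D.e (i+1)) ((g : Matrix (Fin 2) (Fin 2) K) - 1) * v ∈ U := by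
      intro U hU v hv
      have h2 : TgR D hd i hi g v ∈ U := by
        have h3 : TgR D hd i hi g v ∈ act (TgR D hd i hi g) U := Submodule.mem_map_of_mem hv
        rwa [hU] at h3
      rw [TgR_eq] at h2
      have := U.sub_mem h2 hv
      rwa [add_sub_cancel_left] at this
    have h1 : (g : Matrix (Fin 2) (Fin 2) K) - 1 ∈ algR D i p := 
      ⟨key p.1 hg1, key p.2 hg2⟩
    obtain ⟨c, hc⟩ := hq _ h1
    refine ⟨c + 1, ?_⟩
    rw [Matrix.sub_mulVec, Matrix.one_mulVec] at hc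
    rw [add_smul, one_smul, ← hc]; abel

/-! ### the letters -/

theorem s1_left (hd : D.d ^ 2 - 1 ≠ 0) (i : ℕ) (h : i + 1 < m) (v : R) : 
    D.s1 (lt i h true) v = D.a • (th D.d (D.e i) (D.e (i+1)) (Yi D.t) * v) := by
  have ht := D.t_ne
  have e1 : Yi D.t - 1 = (D.t)⁻¹ • !![D.d, 1; 0, 0] := by
    unfold Yi TLD.d
    ext a b
    fin_cases a <;> fin_cases b <;> simp
    field_simp
    ring
  have e2 : th D.d (D.e i) (D.e (i+1)) (Yi D.t) = 1 + (D.t)⁻¹ • D.e i := by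
    unfold th
    rw [e1, map_smul, io_left D hd]
  rw [e2, TLD.s1_apply, ← smul_mul_assoc]
  congr 1
  show D.a • (1:R) + D.a⁻¹ • D.e i = _
  rw [smul_add, smul_smul]
  congr 2
  unfold TLD.t
  have := D.a_ne
  field_simp

theorem s1_right (hd : D.d ^ 2 - 1 ≠ 0) (i : ℕ) (h : i + 1 + 1 < m) (v : R) : 
    D.s1 (lt (i+1) h true) v = D.a • (th D.d (D.e i) (D.e (i+1)) (Yj D.t) * v) := by
  have ht := D.t_ne
  have e1 : Yj D.t - 1 = (D.t)⁻¹ • !![0, 0; 1, D.d] := by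
    unfold Yj TLD.d
    ext a b
    fin_cases a <;> fin_cases b <;> simp
    field_simp
    ring
  have e2 : th D.d (D.e i) (D.e (i+1)) (Yj D.t) = 1 + (D.t)⁻¹ • D.e (i+1) := by
    unfold th
    rw [e1, map_smul, io_right D hd]
  rw [e2, TLD.s1_apply, ← smul_mul_assoc]
  congr 1
  show D.a • (1:R) + D.a⁻¹ • D.e (i+1) = _
  rw [smul_add, smul_smul]
  congr 2
  unfold TLD.t
  have := D.a_ne
  field_simp

theorem act_congr_smul (f g : R ≃ₗ[K] R) (c : K) (hc : c ≠ 0) (h : ∀ v, f v = c • g v) (U : Submodule K R) : 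
    act f U = act g U := by
  have h1 : (f : R →ₗ[K] R) = c • (g : R →ₗ[K] R) := by
    ext v
    exact h v
  show U.map (f : R →ₗ[K] R) = U.map (g : R →ₗ[K] R)
  rw [h1, Submodule.map_smul _ _ _ hc]

/-- the subspaces belonging to a subspace of `R × K` -/
noncomputable def pr (W : Submodule K (R × K)) : SS K R := 
  (W.comap (LinearMap.inl K R K), W.map (LinearMap.fst K R K))

theorem pr_map (f : R ≃ₗ[K] R) (c : K ≃ₗ[K] K) (W : Submodule K (R × K)) : 
    pr (W.map ((LinearEquiv.prodCongr f c : (R × K) ≃ₗ[K] (R × K)) : (R × K) →ₗ[K] (R × K))) = 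
      (act f (pr W).1, act f (pr W).2) := by
  unfold pr
  refine Prod.ext ?_ ?_
  · apply Submodule.ext
    intro r
    show (r, (0:K)) ∈ W.map _ ↔ r ∈ (W.comap (LinearMap.inl K R K)).map (f : R →ₗ[K] R)
    rw [Submodule.mem_map, Submodule.mem_map]
    constructor
    · rintro ⟨⟨r', k'⟩, hw, h⟩
      have h1 : f r' = r := congrArg Prod.fst h
      have h2 : c k' = 0 := congrArg Prod.snd h
      have h3 : k' = 0 := by simpa using h2
      subst h3
      exact ⟨r', hw, h1⟩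
    · rintro ⟨r', hw, h⟩
      refine ⟨(r', 0), hw, ?_⟩
      exact Prod.ext h (map_zero c)
  · apply Submodule.ext
    intro r
    show r ∈ (W.map _).map (LinearMap.fst K R K) ↔ r ∈ (W.map (LinearMap.fst K R K)).map (f : R →ₗ[K] R)
    simp only [Submodule.mem_map]
    constructor
    · rintro ⟨_, ⟨⟨r', k'⟩, hw, rfl⟩, rfl⟩
      exact ⟨r', ⟨(r', k'), hw, rfl⟩, rfl⟩
    · rintro ⟨_, ⟨⟨r', k'⟩, hw, rfl⟩, rfl⟩
      exact ⟨_, ⟨(r', k'), hw, rfl⟩, rfl⟩

/-- a subspace whose pair is stable is stable -/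
theorem pr_good (hd : D.d ^ 2 - 1 ≠ 0) (i : ℕ) (hi : i + 2 < m) (W : Submodule K (R × K)) 
    (hW : ¬ ∀ v ∈ W, ((D.e i * v.1, 0) : R × K) ∈ W) : pr W ∈ goodR D i := by
  intro hst
  apply hW
  rintro ⟨r, c⟩ hrc
  set U := W.comap (LinearMap.inl K R K) with hU
  have hUmem : ∀ x : R, x ∈ U ↔ ((x, 0) : R × K) ∈ W := fun x => Iff.rfl
  obtain ⟨hU1, hV1⟩ := hst
  have hmem : ∀ x : R, x ∈ (pr W).2 ↔ ∃ k : K, (x, k) ∈ W := by
    intro x
    show x ∈ W.map (LinearMap.fst K R K) ↔ _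
    rw [Submodule.mem_map]
    constructor
    · rintro ⟨⟨r', k'⟩, hw, rfl⟩; exact ⟨k', hw⟩
    · rintro ⟨k, hk⟩; exact ⟨(x, k), hk, rfl⟩
  have hU2 : ∀ x ∈ U, D.e i * x ∈ U := hU1.1
  have hU3 : ∀ x ∈ U, D.e (i+1) * x ∈ U := hU1.2
  show ((D.e i * r, 0) : R × K) ∈ W
  rw [← hUmem]
  by_cases hr : r ∈ U
  · exact hU2 r hr
  have hc : c ≠ 0 := by
    rintro rfl
    exact hr hrc
  have hstep : ∀ x : R, (∃ k : K, (x, k) ∈ W) → ∃ lam : K, x - lam • r ∈ U := by
    rintro x ⟨k, hk⟩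
    refine ⟨k / c, ?_⟩
    rw [hUmem]
    have h1 := W.sub_mem hk (W.smul_mem (k / c) hrc)
    have h2 : (x, k) - (k / c) • (r, c) = ((x - (k / c) • r, 0) : R × K) := by
      refine Prod.ext rfl ?_
      show k - (k / c) * c = 0
      field_simp
      ring
    rwa [h2] at h1
  obtain ⟨lam, hlam⟩ := hstep (D.e i * r) ((hmem _).1 (hV1.1 r ((hmem r).2 ⟨c, hrc⟩)))
  obtain ⟨mu, hmu⟩ := hstep (D.e (i+1) * r) ((hmem _).1 (hV1.2 r ((hmem r).2 ⟨c, hrc⟩)))
  have tl := D.e_TL2 i hi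
  -- relations
  have hz : ∀ z : K, z • r ∈ U → z = 0 := by
    intro z hz
    by_contra hne
    apply hr
    have := U.smul_mem z⁻¹ hz
    rwa [smul_smul, inv_mul_cancel₀ hne, one_smul] at this
  have r1 : (D.d - lam) * lam = 0 := by
    apply hz
    have h1 := hU2 _ hlam
    have h2 : D.e i * (D.e i * r - lam • r) = (D.d - lam) • (D.e i * r) := by
      rw [mul_sub, ← mul_assoc, tl.aa, smul_mul_assoc, mul_smul_comm, sub_smul]
    rw [h2] at h1
    have h3 := U.sub_mem h1 (U.smul_mem (D.d - lam) hlam)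
    rwa [← smul_sub, sub_sub_cancel, smul_smul] at h3
  have r2 : (D.d - mu) * mu = 0 := by
    apply hz
    have h1 := hU3 _ hmu
    have h2 : D.e (i+1) * (D.e (i+1) * r - mu • r) = (D.d - mu) • (D.e (i+1) * r) := by
      rw [mul_sub, ← mul_assoc, tl.bb, smul_mul_assoc, mul_smul_comm, sub_smul]
    rw [h2] at h1
    have h3 := U.sub_mem h1 (U.smul_mem (D.d - mu) hmu)
    rwa [← smul_sub, sub_sub_cancel, smul_smul] at h3
  have r3 : (1 - lam * mu) * lam = 0 := by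
    apply hz
    have h1 := hU2 _ (hU3 _ hlam)
    have h2 : D.e i * (D.e (i+1) * (D.e i * r - lam • r)) = 
        D.e i * r - lam • (D.e i * (D.e (i+1) * r)) := by
      rw [mul_sub, mul_sub, mul_smul_comm, mul_smul_comm, ← mul_assoc, ← mul_assoc, ← mul_assoc, tl.aba,
        mul_assoc]
    rw [h2] at h1
    have h3 := U.smul_mem lam (hU2 _ hmu)
    have h4 : lam • (D.e i * (D.e (i+1) * r - mu • r)) = 
        lam • (D.e i * (D.e (i+1) * r)) - (lam * mu) • (D.e i * r) := by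
      rw [mul_sub, mul_smul_comm, smul_sub, smul_smul]
    rw [h4] at h3
    have h5 := U.add_mem h1 h3
    have h6 : D.e i * r - lam • (D.e i * (D.e (i+1) * r)) + 
        (lam • (D.e i * (D.e (i+1) * r)) - (lam * mu) • (D.e i * r)) = (1 - lam * mu) • (D.e i * r) := by
      rw [sub_smul, one_smul]; abel
    rw [h6] at h5
    have h7 := U.sub_mem h5 (U.smul_mem (1 - lam * mu) hlam)
    rwa [← smul_sub, sub_sub_cancel, smul_smul] at h7
  have hlam0 : lam = 0 := by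
    by_contra hne
    have a1 : D.d - lam = 0 := (mul_eq_zero.1 r1).resolve_right hne
    have a2 : 1 - lam * mu = 0 := (mul_eq_zero.1 r3).resolve_right hne
    have hmu0 : mu ≠ 0 := by
      rintro rfl
      simp at a2
    have a3 : D.d - mu = 0 := (mul_eq_zero.1 r2).resolve_right hmu0
    apply hd
    have b1 : lam = D.d := (sub_eq_zero.1 a1).symm
    have b2 : mu = D.d := (sub_eq_zero.1 a3).symm
    rw [b1, b2] at a2
    linear_combination -a2
  rw [hlam0, zero_smul, sub_zero] at hlam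
  exact hlam

end Pool.Agent.Y463.UT
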