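import Pool.Agent.Y463.SK.Defs

/-!
# Random exponents in a braid word
-/

set_option autoImplicit false

namespace Pool.Agent.Y463.UT

open Pool.Agent.H891R2.Jones Pool.Agent.W639.RB Pool.Agent.Y463.SK

/-- a probability distribution with finite support on the integers -/
structure Law where
  /-- a finite set containing the support -/
  A : Finset ℤ
  /-- the probabilities -/
  p : ℤ → ℝ
  nn : ∀ n, 0 ≤ p n
  sum : ∑ n ∈ A, p n = 1

/-- no value has probability larger than `ε` -/
def Law.Spread (μ : Law) (ε : ℝ) : Prop := ∀ n ∈ μ.A, μ.p n ≤ ε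

open Classical in
/-- the probability of `E` for independent integers `x_1, …, x_k` with the distributions `μ_1, …, μ_k` -/
noncomputable def prob {k : ℕ} (μ : Fin k → Law) (E : (Fin k → ℤ) → Prop) : ℝ := 
  ∑ x ∈ (Fintype.piFinset (fun j => (μ j).A)).filter E, ∏ j, (μ j).p (x j)

/-- the braid word `σ_{i_1}^{x_1} σ_{i_2}^{x_2} ⋯ σ_{i_k}^{x_k}` -/
def tw {m k : ℕ} (i : Fin k → Fin (m - 1)) (x : Fin k → ℤ) : List (Letter m) := 
  (List.ofFn (fun j => powW [(true, i j)] (x j))).flatten

open Classical in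
/-- the number of `j` such that `i_j` and `i_{j+1}` are neighbouring places, `|i_j - i_{j+1}| = 1`, and no
value of `x_j` or `x_{j+1}` has probability larger than `ε` -/
noncomputable def turns {m k : ℕ} (i : Fin k → Fin (m - 1)) (μ : Fin k → Law) (ε : ℝ) : ℕ := 
  (Finset.univ.filter (fun j : Fin k => ∃ h : (j : ℕ) + 1 < k, 
    ((i j : ℕ) + 1 = i ⟨j + 1, h⟩ ∨ (i ⟨j + 1, h⟩ : ℕ) + 1 = i j) ∧ 
      (μ j).Spread ε ∧ (μ ⟨j + 1, h⟩).Spread ε)).card

end Pool.Agent.Y463.UT
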