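import Pool.Agent.Y463.UT.Two
import Pool.Agent.Y463.MP.Ind

/-!
# Random products acting on the subspaces of a space fibred over a finite set

`X = P × Sub(V)`.  The probability that a random product of permutations of `X` brings a subspace to contain
a given vector is bounded by induction on the dimension, from a bound of the norm of the averages over
certain pairs of consecutive steps (the sites).
-/

set_option autoImplicit false

namespace Pool.Agent.Y463.UT

open Finset Pool.Agent.W705.JR Pool.Agent.Y463.MP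

/-! ### measures on a finite set of vectors -/

section measure

variable {K : Type} [Field K] {V : Type} [AddCommGroup V] [Module K V] 

open Classical in
/-- the mass of a subspace -/
noncomputable def mass {Y : Type} [Fintype Y] (p : Y → ℝ) (η : Y → V) (W : Submodule K V) : ℝ := 
  ∑ y, if η y ∈ W then p y else 0

open Classical in
/-- the mass of the independent tuples in a subspace -/
noncomputable def tup {Y : Type} [Fintype Y] (p : Y → ℝ) (η : Y → V) (i : ℕ) (W : Submodule K V) : ℝ := 
  ∑ z : Fin i → Y, if (∀ k, η (z k) ∈ W) ∧ LinearIndependent K (η ∘ z) then ∏ k, p (z k) else 0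

variable {Y : Type} [Fintype Y] {p : Y → ℝ} {η : Y → V}

theorem tup_zero (W : Submodule K V) : tup p η 0 W = 1 := by
  classical
  unfold tup
  rw [Fintype.sum_unique, if_pos, Finset.univ_eq_empty, Finset.prod_empty]
  exact ⟨fun k => k.elim0, linearIndependent_empty_type⟩

theorem tup_nonneg (hp : ∀ y, 0 ≤ p y) (i : ℕ) (W : Submodule K V) : 0 ≤ tup p η i W := by
  unfold tup
  refine Finset.sum_nonneg fun z _ => ?_
  split_ifs
  · exact Finset.prod_nonneg fun k _ => hp _
  · exact le_rfl

theorem tup_succ (hp : ∀ y, 0 ≤ p y) (ε : ℝ) (i : ℕ) (W : Submodule K V) 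
    (h : ∀ W' ≤ W, Module.finrank K W' ≤ i → mass p η W' ≤ ε) : 
    tup p η i W * (mass p η W - ε) ≤ tup p η (i + 1) W := by
  classical
  unfold tup
  set F : (Fin (i+1) → Y) → ℝ := fun z => 
    if (∀ k, η (z k) ∈ W) ∧ LinearIndependent K (η ∘ z) then ∏ k, p (z k) else 0 with hF
  have e3 := (Fin.consEquiv (fun _ : Fin (i+1) => Y)).sum_comp F
  have e5 := Fintype.sum_prod_type_right (fun x : Y × (Fin i → Y) => 
      F ((Fin.consEquiv (fun _ : Fin (i+1) => Y)) x))
  rw [← e3]
  refine le_trans ?_ (le_of_eq e5.symm)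
  rw [Finset.sum_mul]
  refine Finset.sum_le_sum fun z _ => ?_
  by_cases hz : (∀ k, η (z k) ∈ W) ∧ LinearIndependent K (η ∘ z)
  · rw [if_pos hz]
    set W' := Submodule.span K (Set.range (η ∘ z)) with hW'
    have hle : W' ≤ W := by
      rw [hW', Submodule.span_le]
      rintro _ ⟨k, rfl⟩
      exact hz.1 k
    have hfr : Module.finrank K W' ≤ i := by
      have := finrank_range_le_card (R := K) (η ∘ z)
      rw [Fintype.card_fin] at this
      exact this
    have h1 := h W' hle hfr
    have h2 : ∑ y, F ((Fin.consEquiv (fun _ : Fin (i+1) => Y)) (y, z)) = 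
        (∏ k, p (z k)) * (mass p η W - mass p η W') := by
      unfold mass
      rw [← Finset.sum_sub_distrib, Finset.mul_sum]
      refine Finset.sum_congr rfl fun y _ => ?_
      have h3 : (Fin.consEquiv (fun _ : Fin (i+1) => Y)) (y, z) = (Fin.cons y z : Fin (i+1) → Y) := rfl
      have h4 : η ∘ (Fin.cons y z : Fin (i+1) → Y) = Fin.cons (η y) (η ∘ z) := by
        funext k
        refine Fin.cases ?_ (fun k => ?_) k
        · rfl
        · rfl
      rw [h3, hF]
      dsimp only
      rw [h4, linearIndependent_finCons, Fin.prod_univ_succ]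
      simp only [Fin.cons_zero, Fin.cons_succ]
      have h5 : (∀ k, η ((Fin.cons y z : Fin (i+1) → Y) k) ∈ W) ↔ η y ∈ W := by
        constructor
        · intro h; exact h 0
        · intro h k
          refine Fin.cases ?_ (fun k => ?_) k
          · exact h
          · exact hz.1 k
      by_cases h6 : η y ∈ W'
      · rw [if_pos h6, if_pos (hle h6), if_neg (fun h => h.2.2 h6)]
        ring
      · rw [if_neg h6]
        by_cases h7 : η y ∈ W
        · rw [if_pos h7, if_pos ⟨h5.2 h7, hz.2, h6⟩]
          ring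
        · rw [if_neg h7, if_neg (fun h => h7 (h5.1 h.1))]
          ring
    rw [h2]
    exact mul_le_mul_of_nonneg_left (by linarith) (Finset.prod_nonneg fun k _ => hp _)
  · rw [if_neg hz, zero_mul]
    refine Finset.sum_nonneg fun y _ => ?_
    rw [hF]
    dsimp only
    split_ifs
    · exact Finset.prod_nonneg fun k _ => hp _
    · exact le_rfl

theorem tup_ge (hp : ∀ y, 0 ≤ p y) (ε : ℝ) (d : ℕ) (W : Submodule K V) 
    (h : ∀ W' ≤ W, Module.finrank K W' ≤ d → mass p η W' ≤ ε) (hW : ε ≤ mass p η W) : 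
    ∀ i ≤ d + 1, (mass p η W - ε) ^ i ≤ tup p η i W := by
  intro i
  induction i with
  | zero => intro _; rw [pow_zero, tup_zero]
  | succ i ih =>
    intro hi
    have h1 := ih (by omega)
    have h2 := tup_succ hp ε i W (fun W' hW' hd => h W' hW' (by omega))
    rw [pow_succ]
    exact (mul_le_mul_of_nonneg_right h1 (by linarith)).trans h2

/-- the independent tuples in different subspaces are different -/
theorem sum_tup_le (hp : ∀ y, 0 ≤ p y) (hs : ∑ y, p y = 1) [FiniteDimensional K V] (d : ℕ) 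
    (F : Finset (Submodule K V)) (hF : ∀ W ∈ F, Module.finrank K W = d) : 
    ∑ W ∈ F, tup p η d W ≤ 1 := by
  classical
  unfold tup
  rw [Finset.sum_comm]
  have h1 : ∑ z : Fin d → Y, ∏ k, p (z k) = 1 := by
    have h3 := Finset.prod_univ_sum (fun _ : Fin d => (Finset.univ : Finset Y)) 
      (fun (_ : Fin d) (b : Y) => p b)
    rw [Fintype.piFinset_univ] at h3
    rw [← h3]
    exact Finset.prod_eq_one fun j _ => hs
  rw [← h1]
  refine Finset.sum_le_sum fun z _ => ?_
  by_cases hz : ∃ W ∈ F, (∀ k, η (z k) ∈ W) ∧ LinearIndependent K (η ∘ z)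
  · obtain ⟨W, hW, h2, h3⟩ := hz
    rw [Finset.sum_eq_single W]
    · rw [if_pos ⟨h2, h3⟩]
    · intro W' hW' hne
      rw [if_neg]
      rintro ⟨h4, _⟩
      apply hne
      have hspan : ∀ U ∈ F, (∀ k, η (z k) ∈ U) → Submodule.span K (Set.range (η ∘ z)) = U := by
        intro U hU h5
        apply Submodule.eq_of_le_of_finrank_eq
        · rw [Submodule.span_le]
          rintro _ ⟨k, rfl⟩
          exact h5 k
        · rw [finrank_span_eq_card h3, Fintype.card_fin, hF U hU]
      rw [← hspan W' hW' h4, ← hspan W hW h2]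
    · intro h; exact absurd hW h
  · push Not at hz
    rw [Finset.sum_eq_zero]
    · exact Finset.prod_nonneg fun k _ => hp _
    · intro W hW
      rw [if_neg]
      rintro ⟨h2, h3⟩
      exact hz W hW h2 h3

/-- the subspaces of large mass -/
theorem sum_mass_le (hp : ∀ y, 0 ≤ p y) (hs : ∑ y, p y = 1) [FiniteDimensional K V] (d : ℕ) (ε : ℝ) 
    (hε : 0 < ε) (F : Finset (Submodule K V)) (hF : ∀ W ∈ F, Module.finrank K W = d + 1) 
    (h : ∀ W ∈ F, ∀ W' ≤ W, Module.finrank K W' ≤ d → mass p η W' ≤ ε) 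
    (hm : ∀ W ∈ F, 2 * ε ≤ mass p η W) : (∑ W ∈ F, mass p η W) * ε ^ d ≤ 2 := by
  have h1 := sum_tup_le (p := p) (η := η) hp hs (d + 1) F hF
  have h2 : ∑ W ∈ F, (mass p η W / 2) * ε ^ d ≤ ∑ W ∈ F, tup p η (d + 1) W := by
    refine Finset.sum_le_sum fun W hW => ?_
    have h3 := hm W hW
    refine le_trans ?_ (tup_ge hp ε d W (h W hW) (by linarith) (d + 1) le_rfl)
    rw [pow_succ, mul_comm]
    apply mul_le_mul
    · exact pow_le_pow_left₀ hε.le (by linarith) d
    · linarith
    · linarith
    · exact pow_nonneg (by linarith) d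
  rw [← Finset.sum_mul, ← Finset.sum_div] at h2
  linarith

end measure

/-! ### the fibred action -/

section fib

variable {K : Type} [Field K] {V : Type} [AddCommGroup V] [Module K V] {P : Type} {J : Type}

/-- the fibred space -/
abbrev XX (K V P : Type) [Field K] [AddCommGroup V] [Module K V] : Type := P × Submodule K V

/-- the permutation is linear on the fibres -/
def FibLin (σ : Equiv.Perm (XX K V P)) : Prop := 
  ∀ U : P, ∃ (U' : P) (g : V ≃ₗ[K] V), ∀ W, σ (U, W) = (U', W.comap (g : V →ₗ[K] V))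

theorem FibLin.one : FibLin (1 : Equiv.Perm (XX K V P)) := 
  fun U => ⟨U, LinearEquiv.refl K V, fun W => by
    refine Prod.ext rfl ?_
    exact (Submodule.comap_id W).symm⟩

theorem FibLin.mul {σ τ : Equiv.Perm (XX K V P)} (hσ : FibLin σ) (hτ : FibLin τ) : FibLin (σ * τ) := by
  intro U
  obtain ⟨U', g, h1⟩ := hτ U
  obtain ⟨U'', g', h2⟩ := hσ U'
  refine ⟨U'', g'.trans g, fun W => ?_⟩
  rw [Equiv.Perm.mul_apply, h1, h2]
  rfl

theorem FibLin.inv {σ : Equiv.Perm (XX K V P)} (hσ : FibLin σ) : FibLin σ⁻¹ := by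
  intro U
  set y := σ⁻¹ (U, ⊥) with hy
  obtain ⟨U', g, h1⟩ := hσ y.1
  have h2 : σ (y.1, y.2) = (U, ⊥) := Equiv.apply_symm_apply σ _
  rw [h1] at h2
  have hU : U' = U := congrArg Prod.fst h2
  refine ⟨y.1, g.symm, fun W => ?_⟩
  rw [Equiv.Perm.inv_eq_iff_eq, h1, hU]
  refine Prod.ext rfl ?_
  show W = (W.comap (g.symm : V →ₗ[K] V)).comap (g : V →ₗ[K] V)
  ext v
  simp

theorem FibLin.zpow {σ : Equiv.Perm (XX K V P)} (hσ : FibLin σ) (n : ℤ) : FibLin (σ ^ n) := by
  induction n using Int.induction_on with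
  | zero => rw [zpow_zero]; exact FibLin.one
  | succ n ih => rw [zpow_add_one]; exact ih.mul hσ
  | pred n ih => rw [zpow_sub_one]; exact ih.mul hσ.inv

open Classical in
/-- the probability that the random product brings the subspace to contain `ξ` -/
noncomputable def hit (s : J → Equiv.Perm (XX K V P)) (ξ : V) : List (J × Law) → XX K V P → ℝ
  | [], x => if ξ ∈ x.2 then 1 else 0
  | (a :: L), x => ∑ n ∈ a.2.A, a.2.p n * hit s ξ L ((s a.1 ^ n)⁻¹ x)

variable {s : J → Equiv.Perm (XX K V P)} {ξ : V}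

theorem hit_nonneg : ∀ (L : List (J × Law)) (x : XX K V P), 0 ≤ hit s ξ L x
  | [], x => by unfold hit; split_ifs <;> norm_num
  | (a :: L), x => by
    unfold hit
    exact Finset.sum_nonneg fun n _ => mul_nonneg (a.2.nn n) (hit_nonneg L _)

theorem hit_le_one : ∀ (L : List (J × Law)) (x : XX K V P), hit s ξ L x ≤ 1
  | [], x => by unfold hit; split_ifs <;> norm_num
  | (a :: L), x => by
    unfold hit
    calc ∑ n ∈ a.2.A, a.2.p n * hit s ξ L ((s a.1 ^ n)⁻¹ x) ≤ ∑ n ∈ a.2.A, a.2.p n * 1 := 
          Finset.sum_le_sum fun n _ => mul_le_mul_of_nonneg_left (hit_le_one L _) (a.2.nn n)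
      _ = 1 := by simp [a.2.sum]

/-- the probabilities are the masses for a probability distribution on finitely many vectors -/
theorem hit_eq_mass (hs : ∀ j, FibLin (s j)) : ∀ (L : List (J × Law)) (U : P), 
    ∃ (Y : Type) (_ : Fintype Y) (p : Y → ℝ) (η : Y → V), (∀ y, 0 ≤ p y) ∧ ∑ y, p y = 1 ∧ 
      ∀ W : Submodule K V, hit s ξ L (U, W) = mass p η W
  | [], U => by
    refine ⟨Unit, inferInstance, fun _ => 1, fun _ => ξ, fun _ => by norm_num, by simp, fun W => ?_⟩
    unfold hit mass
    simp
  | (a :: L), U => by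
    classical
    have h1 : ∀ n : a.2.A, ∃ (U' : P) (g : V ≃ₗ[K] V), ∀ W, (s a.1 ^ (n : ℤ))⁻¹ (U, W) = 
        (U', W.comap (g : V →ₗ[K] V)) := fun n => ((hs a.1).zpow n).inv U
    choose U' g hg using h1
    have h2 := fun n : a.2.A => hit_eq_mass hs L (U' n)
    choose Y hY p η hp hsum hmass using h2
    refine ⟨(Σ n : a.2.A, Y n), inferInstance, fun y => a.2.p y.1 * p y.1 y.2, 
      fun y => g y.1 (η y.1 y.2), fun y => mul_nonneg (a.2.nn _) (hp _ _), ?_, fun W => ?_⟩
    · rw [Fintype.sum_sigma]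
      simp only [← Finset.mul_sum, hsum, mul_one]
      rw [Finset.sum_coe_sort a.2.A (fun n => a.2.p n)]
      exact a.2.sum
    · unfold hit mass
      rw [Fintype.sum_sigma, ← Finset.sum_coe_sort a.2.A 
        (fun n => a.2.p n * hit s ξ L ((s a.1 ^ n)⁻¹ (U, W)))]
      refine Finset.sum_congr rfl fun n _ => ?_
      rw [hg, hmass]
      unfold mass
      rw [Finset.mul_sum]
      refine Finset.sum_congr rfl fun y _ => ?_
      show _ = if g n (η n y) ∈ W then a.2.p n * p n y else 0
      by_cases h : g n (η n y) ∈ W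
      · rw [if_pos h, if_pos (show η n y ∈ W.comap (g n : V →ₗ[K] V) from h)]
      · rw [if_neg h, if_neg (show ¬ η n y ∈ W.comap (g n : V →ₗ[K] V) from h), mul_zero]

/-- the list contains `k` disjoint sites -/
inductive Con {α : Type} (Site : α → α → Prop) : List α → ℕ → Prop
  | nil : Con Site [] 0
  | cons {L : List α} {k : ℕ} (q : α) : Con Site L k → Con Site (q :: L) k
  | site {L : List α} {k : ℕ} (q q' : α) : Site q q' → Con Site L k → Con Site (q :: q' :: L) (k + 1)

section con

variable {α : Type} {Site : α → α → Prop}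

theorem Con.zero : ∀ L : List α, Con Site L 0
  | [] => Con.nil
  | (q :: L) => Con.cons q (Con.zero L)

theorem Con.drop {L : List α} {k : ℕ} (h : Con Site L k) : ∀ j ≤ k, Con Site L j := by
  induction h with
  | nil => intro j hj; obtain rfl : j = 0 := by omega
           exact Con.nil
  | cons q _ ih => intro j hj; exact Con.cons q (ih j hj)
  | @site L k q q' hs _ ih =>
    intro j hj
    rcases Nat.lt_or_ge k j with h1 | h1
    · obtain rfl : j = k + 1 := by omega
      exact Con.site q q' hs (ih k le_rfl)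
    · exact Con.cons q (Con.cons q' (ih j h1))

theorem Con.split {L : List α} {k : ℕ} (h : Con Site L k) : ∀ a b, a + b = k → 
    ∃ L1 L2, L = L1 ++ L2 ∧ Con Site L1 a ∧ Con Site L2 b := by
  induction h with
  | nil => 
    intro a b hab
    obtain rfl : a = 0 := by omega
    obtain rfl : b = 0 := by omega
    exact ⟨[], [], rfl, Con.nil, Con.nil⟩
  | cons q _ ih =>
    intro a b hab
    obtain ⟨L1, L2, rfl, h1, h2⟩ := ih a b hab
    exact ⟨q :: L1, L2, rfl, Con.cons q h1, h2⟩
  | @site L k q q' hs hL ih =>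
    intro a b hab
    rcases Nat.eq_zero_or_pos a with ha | ha
    · subst ha
      obtain rfl : b = k + 1 := by omega
      exact ⟨[], q :: q' :: L, rfl, Con.nil, Con.site q q' hs hL⟩
    · obtain ⟨a', rfl⟩ : ∃ a', a = a' + 1 := ⟨a - 1, by omega⟩
      obtain ⟨L1, L2, rfl, h1, h2⟩ := ih a' b (by omega)
      exact ⟨q :: q' :: L1, L2, rfl, Con.site q q' hs h1, h2⟩

open Classical in
/-- the number of consecutive pairs which are sites -/
noncomputable def cnt (Site : α → α → Prop) : List α → ℕ
  | [] => 0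
  | [_] => 0
  | (q :: q' :: L) => (if Site q q' then 1 else 0) + cnt Site (q' :: L)

theorem cnt_cons_le (q : α) (L : List α) : cnt Site (q :: L) ≤ 1 + cnt Site L := by
  rcases L with _ | ⟨q', L⟩
  · simp [cnt]
  · rw [cnt]
    split_ifs <;> omega

theorem cnt_nonsite (q q' : α) (L : List α) (h : ¬ Site q q') : 
    cnt Site (q :: q' :: L) = cnt Site (q' :: L) := by
  rw [cnt, if_neg h, zero_add]

theorem con_of_cnt : ∀ (L : List α) (k : ℕ), 2 * k ≤ cnt Site L + 1 → Con Site L k
  | [], k, h => by
    have : cnt Site [] = 0 := rfl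
    obtain rfl : k = 0 := by omega
    exact Con.nil
  | [q], k, h => by
    have : cnt Site [q] = 0 := rfl
    obtain rfl : k = 0 := by omega
    exact Con.cons q Con.nil
  | (q :: q' :: L), k, h => by
    by_cases hs : Site q q'
    · rcases Nat.eq_zero_or_pos k with hk | hk
      · subst hk; exact Con.zero _
      · obtain ⟨k', rfl⟩ : ∃ k', k = k' + 1 := ⟨k - 1, by omega⟩
        refine Con.site q q' hs (con_of_cnt L k' ?_)
        have h1 := cnt_cons_le (Site := Site) q (q' :: L)
        have h2 := cnt_cons_le (Site := Site) q' L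
        omega
    · refine Con.cons q (con_of_cnt (q' :: L) k ?_)
      rw [cnt_nonsite q q' L hs] at h
      exact h

open Classical in
theorem cnt_ofFn (Site : α → α → Prop) : ∀ (n : ℕ) (q : Fin n → α), 
    (univ.filter (fun j : Fin n => ∃ h : (j : ℕ) + 1 < n, Site (q j) (q ⟨j + 1, h⟩))).card = 
      cnt Site (List.ofFn q)
  | 0, q => by simp [cnt]
  | 1, q => by
    rw [List.ofFn_succ, List.ofFn_zero]
    show _ = 0
    rw [Finset.card_eq_zero, Finset.filter_eq_empty_iff]
    rintro j _ ⟨h, _⟩
    omega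
  | (n+2), q => by
    have ih := cnt_ofFn Site (n+1) (fun j => q j.succ)
    rw [List.ofFn_succ, List.ofFn_succ, cnt]
    rw [List.ofFn_succ] at ih
    rw [← ih, Finset.card_filter, Fin.sum_univ_succ, Finset.card_filter]
    congr 1
    · have h1 : (∃ h : ((0 : Fin (n+2)) : ℕ) + 1 < n + 2, Site (q 0) (q ⟨((0 : Fin (n+2)) : ℕ) + 1, h⟩)) ↔ 
          Site (q 0) (q (Fin.succ 0)) := by
        constructor
        · rintro ⟨_, h⟩; exact h
        · intro h
          exact ⟨by simp, h⟩
      simp only [h1]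
    · refine Finset.sum_congr rfl fun j _ => ?_
      have h1 : (∃ h : ((Fin.succ j : Fin (n+2)) : ℕ) + 1 < n + 2, 
          Site (q j.succ) (q ⟨((Fin.succ j : Fin (n+2)) : ℕ) + 1, h⟩)) ↔ 
          ∃ h : (j : ℕ) + 1 < n + 1, Site (q j.succ) (q (Fin.succ ⟨(j : ℕ) + 1, h⟩)) := by
        constructor
        · rintro ⟨h, h'⟩
          rw [Fin.val_succ] at h
          exact ⟨by omega, h'⟩
        · rintro ⟨h, h'⟩
          exact ⟨by rw [Fin.val_succ]; omega, h'⟩
      simp only [h1]

end con

end fib

end Pool.Agent.Y463.UT
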