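import Pool.Agent.Y463.UT.Link
import Pool.Agent.Y463.MP.Fin

/-!
# The final inequalities
-/

set_option autoImplicit false

namespace Pool.Agent.Y463.UT

open Finset LaurentPolynomial Pool.Agent.H891R2.Jones Pool.Agent.W639.RB Pool.Agent.Y463.SK 
  Pool.Agent.Y463.MP Pool.Agent.W705.JR

variable {m : ℕ}

open Classical in
theorem prob_eq {k : ℕ} (μ : Fin k → Law) (E : (Fin k → ℤ) → Prop) : 
    prob μ E = ∑ x ∈ Fintype.piFinset (fun j => (μ j).A), if E x then ∏ j, (μ j).p (x j) else 0 := by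
  unfold prob
  rw [Finset.sum_filter]

theorem prob_mono {k : ℕ} (μ : Fin k → Law) (E F : (Fin k → ℤ) → Prop) 
    (h : ∀ x ∈ Fintype.piFinset (fun j => (μ j).A), E x → F x) : prob μ E ≤ prob μ F := by
  classical
  unfold prob
  refine Finset.sum_le_sum_of_subset_of_nonneg ?_ (fun x _ _ => Finset.prod_nonneg fun j _ => (μ j).nn _)
  intro x hx
  rw [Finset.mem_filter] at hx ⊢
  exact ⟨hx.1, h x hx.1 hx.2⟩

theorem prob_nonneg {k : ℕ} (μ : Fin k → Law) (E : (Fin k → ℤ) → Prop) : 0 ≤ prob μ E := by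
  classical
  unfold prob
  exact Finset.sum_nonneg fun x _ => Finset.prod_nonneg fun j _ => (μ j).nn _

theorem prob_le_one {k : ℕ} (μ : Fin k → Law) (E : (Fin k → ℤ) → Prop) : prob μ E ≤ 1 := by
  classical
  have h1 : prob μ E ≤ ∑ x ∈ Fintype.piFinset (fun j => (μ j).A), ∏ j, (μ j).p (x j) := by
    unfold prob
    exact Finset.sum_le_sum_of_subset_of_nonneg (Finset.filter_subset _ _) 
      (fun x _ _ => Finset.prod_nonneg fun j _ => (μ j).nn _)
  refine h1.trans (le_of_eq ?_)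
  have h3 := Finset.prod_univ_sum (fun j : Fin k => (μ j).A) (fun (j : Fin k) (b : ℤ) => (μ j).p b)
  rw [← h3]
  exact Finset.prod_eq_one fun j _ => (μ j).sum

theorem dvd_phi {N : ℕ} (l : ℕ) [Fact l.Prime] (hl : l ∣ N) (f g : ℤ[T;T⁻¹]) 
    (h : (N : ℤ[T;T⁻¹]) ∣ f - g) : phi l f = phi l g := by
  have h2 : phi l (f - g) = 0 := by
    rw [phi_zero_iff]
    exact dvd_trans (by exact_mod_cast (map_dvd (Nat.castRingHom ℤ[T;T⁻¹]) hl)) h
  rwa [map_sub, sub_eq_zero] at h2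

theorem sqrt_pow (a : ℝ) (ha : 0 ≤ a) (u : ℕ) : √a ^ u = a ^ ((u : ℝ) / 2) := by
  rw [Real.sqrt_eq_rpow, ← Real.rpow_natCast, ← Real.rpow_mul ha]
  congr 1
  ring

theorem main' (l : ℕ) [Fact l.Prime] (hm : 3 ≤ m) (O : Outer m) (z : LL l) (k : ℕ) 
    (i : Fin k → Fin (m - 1)) (μ : Fin k → Law) (ε : ℝ) (hε : 0 < ε) (u : ℕ) 
    (hu : u * ((m.factorial + 1) * (m.factorial + 2)) ≤ turns i μ ε) : 
    prob μ (fun x => phi l (dia O (tw i x)).fPoly = z) ≤ CU m * (8 * ε) ^ ((u : ℝ) / 2) := by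
  classical
  rw [← sqrt_pow _ (by positivity)]
  refine le_trans (le_of_eq ?_) (main l hm O z k i μ ε hε u hu)
  rw [prob_eq]
  unfold probZ
  rfl

theorem final (hm : 3 ≤ m) (N : ℕ) (hN : 2 ≤ N) (O : Outer m) (g : ℤ[T;T⁻¹]) (k : ℕ) 
    (i : Fin k → Fin (m - 1)) (μ : Fin k → Law) (ε : ℝ) (hε : 0 < ε) (u : ℕ) 
    (hu : u * ((m.factorial + 1) * (m.factorial + 2)) ≤ turns i μ ε) : 
    prob μ (fun x => (N : ℤ[T;T⁻¹]) ∣ (dia O (tw i x)).fPoly - g) ≤ CU m * (8 * ε) ^ ((u : ℝ) / 2) := by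
  classical
  set l := N.minFac with hl
  have hlp : l.Prime := Nat.minFac_prime (by omega)
  haveI : Fact l.Prime := ⟨hlp⟩
  exact le_trans (prob_mono μ _ (fun x => phi l (dia O (tw i x)).fPoly = phi l g) 
    (fun x _ hx => dvd_phi l (Nat.minFac_dvd N) _ _ hx)) (main' l hm O (phi l g) k i μ ε hε u hu)

/-! ### few coefficients -/

open Classical in
theorem few_gen (l : ℕ) [Fact l.Prime] {α : Type} (S : Finset α) (F : α → ℤ[T;T⁻¹]) (wt : α → ℝ) 
    (hwt : ∀ a, 0 ≤ wt a) (W : ℕ) (hW : ∀ a ∈ S, Within W (F a)) (B : ℝ) 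
    (hB : ∀ z : LL l, ∑ a ∈ S, (if phi l (F a) = z then wt a else 0) ≤ B) (k : ℕ) (x : ℝ) (hx0 : 0 < x) 
    (hx1 : x ≤ 1) : 
    (∑ a ∈ S, (if nonmult l (F a) ≤ k then wt a else 0)) * x ^ k ≤ (1 + (l - 1) * x) ^ (2 * W + 1) * B := by
  set s : Finset ℤ := Finset.Icc (-(W : ℤ)) W with hs
  have hcard : s.card = 2 * W + 1 := by
    rw [hs, Int.card_Icc]
    omega
  set H := (univ.filter (fun h : s → ZMod l => (univ.filter (fun j => h j ≠ 0)).card ≤ k)) with hH
  have hB0 : 0 ≤ B := by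
    refine le_trans ?_ (hB 0)
    exact Finset.sum_nonneg fun w _ => by
      split_ifs
      · exact hwt w
      · exact le_rfl
  have h1 : ∀ a ∈ S, (if nonmult l (F a) ≤ k then wt a else 0) ≤ 
        ∑ h ∈ H, (if phi l (F a) = zval l s h then wt a else 0) := by
    intro a ha
    have hnn : ∀ h ∈ H, 0 ≤ (if phi l (F a) = zval l s h then wt a else 0) := by
      intro h _
      split_ifs
      · exact hwt a
      · exact le_rfl
    split_ifs with hk
    · have hsub := support_subset (hW a ha)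
      have h2 := phi_eq_zval l _ s hsub
      have h3 := nonmult_eq l _ s hsub
      refine le_trans ?_ (Finset.single_le_sum hnn (Finset.mem_filter.2 ⟨Finset.mem_univ 
        (fun j : s => (((F a).coeff j : ℤ) : ZMod l)), by rw [h3]; exact hk⟩))
      rw [if_pos h2]
    · exact Finset.sum_nonneg hnn
  have h2 : (∑ a ∈ S, (if nonmult l (F a) ≤ k then wt a else 0)) ≤ H.card * B := by
    refine (Finset.sum_le_sum h1).trans ?_
    rw [Finset.sum_comm, ← nsmul_eq_mul]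
    exact Finset.sum_le_card_nsmul _ _ _ fun h _ => hB (zval l s h)
  have h3 := card_few l s k x hx0 hx1
  rw [hcard] at h3
  calc _ ≤ (H.card * B) * x ^ k := mul_le_mul_of_nonneg_right h2 (by positivity)
    _ = (H.card * x ^ k) * B := by ring
    _ ≤ _ := mul_le_mul_of_nonneg_right h3 hB0

theorem tw_length {k : ℕ} (i : Fin k → Fin (m - 1)) (x : Fin k → ℤ) : 
    ((tw i x).length : ℤ) = ∑ j, |x j| := by
  have h1 : ∀ (j : Fin (m - 1)) (n : ℤ), ((powW [((true, j) : Letter m)] n).length : ℤ) = |n| := by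
    intro j n
    rcases n with n | n
    · show (((List.replicate n [((true, j) : Letter m)]).flatten.length : ℕ) : ℤ) = _
      simp
    · show (((List.replicate (n+1) (invW [((true, j) : Letter m)])).flatten.length : ℕ) : ℤ) = _
      have h0 : (invW [((true, j) : Letter m)]).length = 1 := by simp [invW]
      have h1 : (List.replicate (n+1) (invW [((true, j) : Letter m)])).flatten.length = n + 1 := by
        simp [h0]
      rw [h1, Int.negSucc_eq, abs_neg, abs_of_nonneg (by positivity)]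
      push_cast
      ring
  unfold tw
  rw [List.length_flatten, List.map_ofFn, List.sum_ofFn]
  push_cast
  refine Finset.sum_congr rfl fun j _ => ?_
  exact h1 (i j) (x j)

theorem within_dia (O : Outer m) (w : List (Letter m)) : Within (win O w.length) (dia O w).fPoly := by
  have h1 := within_diagram O w.get
  have h2 : toL w.get = w.map (fun x => (x.1, (x.2 : ℕ))) := by
    unfold toL
    rw [show (fun j => ((w.get j).1, ((w.get j).2 : ℕ))) = 
      (fun x : Letter m => (x.1, (x.2 : ℕ))) ∘ w.get from rfl, ← List.map_ofFn, List.ofFn_get]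
  rw [h2] at h1
  exact h1

/-- few coefficients -/
theorem final2 (hm : 3 ≤ m) (N : ℕ) (hN : 2 ≤ N) (κ : ℝ) : 
    ∃ C' : ℝ, 0 < C' ∧ ∀ (O : Outer m) (k : ℕ) (i : Fin k → Fin (m - 1)) (μ : Fin k → Law) 
      (ε : ℝ), 0 < ε → ∀ u : ℕ, u * ((m.factorial + 1) * (m.factorial + 2)) ≤ turns i μ ε → 
        (∀ x ∈ Fintype.piFinset (fun j => (μ j).A), (osize O : ℝ) + ∑ j, |(x j : ℝ)| ≤ κ * (u + 1) / ε) → 
        prob μ (fun x => 4 * nonmult N (dia O (tw i x)).fPoly ≤ u) ≤ 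
          (Real.exp 1 * CU m) * (C' * ε) ^ ((u : ℝ) / 4) := by
  classical
  set l := N.minFac with hl
  have hlp : l.Prime := Nat.minFac_prime (by omega)
  haveI : Fact l.Prime := ⟨hlp⟩
  have hl2 : 2 ≤ l := hlp.two_le
  have hl1 : (1:ℝ) ≤ (l:ℝ) - 1 := by
    have : (2:ℝ) ≤ l := by exact_mod_cast hl2
    linarith
  set κ' : ℝ := max κ 0 with hκ'
  have hκ0 : 0 ≤ κ' := le_max_right _ _
  set c : ℝ := (8 + 4 * m) * κ' + 1 with hc
  have hc1 : 1 ≤ c := by
    have : 0 ≤ (8 + 4 * (m:ℝ)) * κ' := by positivity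
    rw [hc]; linarith
  have hCU : 1 ≤ CU m := cst_ge _ _
  set C' : ℝ := 64 * Real.exp 4 * ((l - 1) * c) with hC'
  have hlc : 1 ≤ ((l:ℝ) - 1) * c := by nlinarith
  have hexp4 : 1 ≤ Real.exp 4 := Real.one_le_exp (by norm_num)
  have hC'1 : 1 ≤ C' := by
    rw [hC']
    nlinarith
  refine ⟨C', by linarith, ?_⟩
  intro O k i μ ε hε u hu hsz
  have hexp1 : 1 ≤ Real.exp 1 := Real.one_le_exp (by norm_num)
  rcases le_or_gt ε 1 with hε1 | hε1
  swap
  · have h1 : 1 ≤ (C' * ε) ^ ((u : ℝ) / 4) := Real.one_le_rpow (by nlinarith) (by positivity)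
    refine (prob_le_one μ _).trans ?_
    nlinarith [mul_le_mul hexp1 hCU zero_le_one (Real.exp_pos 1).le]
  set x0 : ℝ := ε / ((l - 1) * c) with hx0
  have hx0pos : 0 < x0 := by positivity
  have hx01 : x0 ≤ 1 := by
    rw [hx0, div_le_one (by positivity)]
    linarith
  set W : ℕ := ⌊(4 + 2 * (m:ℝ)) * (κ' * (u + 1) / ε)⌋₊ with hW
  have hWle : (W : ℝ) ≤ (4 + 2 * (m:ℝ)) * (κ' * (u + 1) / ε) := Nat.floor_le (by positivity)
  have hwin : ∀ x ∈ Fintype.piFinset (fun j => (μ j).A), Within W (dia O (tw i x)).fPoly := by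
    intro x hx
    refine (within_dia O (tw i x)).mono ?_
    apply Nat.le_floor
    have h1 := hsz x hx
    have h2 : ((tw i x).length : ℝ) = ∑ j, |(x j : ℝ)| := by
      have := tw_length i x
      have h3 : (((tw i x).length : ℤ) : ℝ) = ((∑ j, |x j| : ℤ) : ℝ) := by rw [this]
      push_cast at h3
      exact h3
    rw [← h2] at h1
    have h4 : κ * ((u:ℝ) + 1) / ε ≤ κ' * (u + 1) / ε := by
      gcongr
      exact le_max_left _ _
    have h5 := h1.trans h4
    have h6 : (win O (tw i x).length : ℝ) ≤ (4 + 2 * m) * (osize O + (tw i x).length) := by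
      unfold win osize
      push_cast
      have h1 : (0:ℝ) ≤ Nat.card O.P := Nat.cast_nonneg _
      have h2 : (0:ℝ) ≤ O.crossings.length := Nat.cast_nonneg _
      have h3 : (0:ℝ) ≤ m := Nat.cast_nonneg _
      nlinarith [mul_nonneg h3 h1, mul_nonneg h3 h2]
    exact h6.trans (mul_le_mul_of_nonneg_left h5 (by positivity))
  have h1 := few_gen l (Fintype.piFinset (fun j => (μ j).A)) (fun x => (dia O (tw i x)).fPoly) 
    (fun x => ∏ j, (μ j).p (x j)) (fun x => Finset.prod_nonneg fun j _ => (μ j).nn _) W hwin 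
    (CU m * (8 * ε) ^ ((u : ℝ) / 2)) (fun z => by
      have := main' l hm O z k i μ ε hε u hu
      rw [prob_eq] at this
      exact this) (u / 4) x0 hx0pos hx01
  set Pr0 := ∑ x ∈ Fintype.piFinset (fun j => (μ j).A), 
    (if nonmult l (dia O (tw i x)).fPoly ≤ u / 4 then ∏ j, (μ j).p (x j) else 0) with hPr0
  have h2 : prob μ (fun x => 4 * nonmult N (dia O (tw i x)).fPoly ≤ u) ≤ Pr0 := by
    rw [prob_eq]
    refine Finset.sum_le_sum fun x _ => ?_
    have hpos : 0 ≤ ∏ j, (μ j).p (x j) := Finset.prod_nonneg fun j _ => (μ j).nn _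
    by_cases h3 : 4 * nonmult N (dia O (tw i x)).fPoly ≤ u
    · have h4 := nonmult_mono (Nat.minFac_dvd N) (dia O (tw i x)).fPoly
      rw [if_pos h3, if_pos (by rw [← hl] at h4; omega)]
    · rw [if_neg h3]
      split_ifs
      · exact hpos
      · exact le_rfl
  refine h2.trans ?_
  have hPr00 : 0 ≤ Pr0 := (prob_nonneg μ _).trans h2
  -- the window
  have h3 : (1 + (l - 1) * x0) ^ (2 * W + 1) ≤ Real.exp (u + 1) := by
    have e1 : 1 + (l - 1) * x0 ≤ Real.exp (ε / c) := by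
      have : (l - 1) * x0 = ε / c := by
        rw [hx0]
        have : (l:ℝ) - 1 ≠ 0 := by linarith
        field_simp
      rw [this, add_comm]
      exact Real.add_one_le_exp _
    have e2 : ((2 * W + 1 : ℕ) : ℝ) * (ε / c) ≤ u + 1 := by
      have e3 : ((2 * W + 1 : ℕ) : ℝ) ≤ c * ((u + 1) / ε) := by
        push_cast
        have e4 : 1 ≤ ((u:ℝ) + 1) / ε := by
          rw [le_div_iff₀ hε]
          have : (0:ℝ) ≤ u := Nat.cast_nonneg _
          linarith
        have e5 : (4 + 2 * (m:ℝ)) * (κ' * (u + 1) / ε) = (4 + 2 * m) * κ' * ((u + 1) / ε) := by ring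
        rw [e5] at hWle
        rw [hc]
        nlinarith
      calc ((2 * W + 1 : ℕ) : ℝ) * (ε / c) ≤ (c * ((u + 1) / ε)) * (ε / c) := 
            mul_le_mul_of_nonneg_right e3 (by positivity)
        _ = u + 1 := by field_simp
    calc (1 + (l - 1) * x0) ^ (2 * W + 1) ≤ (Real.exp (ε / c)) ^ (2 * W + 1) := by
          apply pow_le_pow_left₀ _ e1
          have : 0 ≤ ((l:ℝ) - 1) * x0 := by positivity
          linarith
      _ = Real.exp (((2 * W + 1 : ℕ) : ℝ) * (ε / c)) := by rw [← Real.exp_nat_mul]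
      _ ≤ _ := Real.exp_le_exp.2 e2
  have h4 : x0 ^ ((u : ℝ) / 4) ≤ x0 ^ (u / 4) := by
    rw [← Real.rpow_natCast]
    apply Real.rpow_le_rpow_of_exponent_ge hx0pos hx01
    have := @Nat.cast_div_le ℝ _ _ _ u 4
    exact_mod_cast this
  have hxu : 0 < x0 ^ ((u : ℝ) / 4) := Real.rpow_pos_of_pos hx0pos _
  have h8 : 0 ≤ CU m * (8 * ε) ^ ((u : ℝ) / 2) := by positivity
  have h5 : Pr0 * x0 ^ ((u : ℝ) / 4) ≤ Real.exp (u + 1) * (CU m * (8 * ε) ^ ((u : ℝ) / 2)) := 
    calc Pr0 * x0 ^ ((u : ℝ) / 4) ≤ Pr0 * x0 ^ (u / 4) := mul_le_mul_of_nonneg_left h4 hPr00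
      _ ≤ _ := h1
      _ ≤ _ := mul_le_mul_of_nonneg_right h3 h8
  have h6 : Real.exp (u + 1) * (CU m * (8 * ε) ^ ((u : ℝ) / 2)) = 
      ((Real.exp 1 * CU m) * (C' * ε) ^ ((u : ℝ) / 4)) * x0 ^ ((u : ℝ) / 4) := by
    have e1 : C' * ε * x0 = Real.exp 4 * (8 * ε) ^ (2:ℝ) := by
      have : (8 * ε) ^ (2:ℝ) = (8 * ε) ^ 2 := by norm_cast
      rw [this, hC', hx0]
      have : (l:ℝ) - 1 ≠ 0 := by linarith
      field_simp
      ring
    have e2 : (C' * ε) ^ ((u : ℝ) / 4) * x0 ^ ((u : ℝ) / 4) = 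
        Real.exp u * (8 * ε) ^ ((u : ℝ) / 2) := by
      rw [← Real.mul_rpow (by positivity) hx0pos.le, e1, Real.mul_rpow (Real.exp_pos 4).le (by positivity), 
        ← Real.rpow_mul (by positivity), ← Real.exp_mul]
      congr 2
      · ring
      · ring
    rw [mul_assoc (Real.exp 1 * CU m), e2, Real.exp_add]
    ring
  rw [h6] at h5
  exact le_of_mul_le_mul_right h5 hxu

/-- short diagrams -/
theorem final3 (N : ℕ) {k : ℕ} (O : Outer m) (i : Fin k → Fin (m - 1)) (μ : Fin k → Law) (u : ℕ) : 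
    prob μ (fun x => ∃ (P : Type) (_ : Finite P) (D : Diagram P), 16 * dsize D + 4 ≤ u ∧ 
      (N : ℤ[T;T⁻¹]) ∣ (dia O (tw i x)).fPoly - D.fPoly) ≤ 
    prob μ (fun x => 4 * nonmult N (dia O (tw i x)).fPoly ≤ u) := by
  apply prob_mono
  rintro x _ ⟨P, hP, D, h1, h2⟩
  have h3 := nonmult_congr N _ _ h2
  have h4 := nonmult_le_dsize N D
  show 4 * nonmult N (dia O (tw i x)).fPoly ≤ u
  rw [h3]
  omega

end Pool.Agent.Y463.UT
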