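import Pool.Agent.Y463.UT.Act

/-!
# The hyperplanes of the outsides and the probability
-/

set_option autoImplicit false

namespace Pool.Agent.Y463.UT

open Finset LaurentPolynomial TensorProduct Pool.Agent.H891R2.Jones Pool.Agent.W639.RB Pool.Agent.Y463.SK 
  Pool.Agent.Y463.MP Pool.Agent.Y463.RW
open Pool.Agent.W705.JR (idx_lt inv' sgn sw cst2 push_up push_length)

variable {m : ℕ} (l : ℕ) [Fact l.Prime]

/-- the space -/
abbrev VX (m : ℕ) : Type := TLL (LL l) m × LL l

/-- the functional belonging to an outside and a value -/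
noncomputable def fX (hm : 0 < m) (O : Outer m) (z : LL l) : VX l m →ₗ[LL l] LL l where
  toFun v := phiL (LL l) hm O v.1 - z * (Dl l m).qq ^ (owr O) * v.2
  map_add' v w := by
    rw [Prod.fst_add, Prod.snd_add, map_add]; ring
  map_smul' c v := by
    rw [Prod.smul_fst, Prod.smul_snd, map_smul, smul_eq_mul, smul_eq_mul, RingHom.id_apply]; ring

theorem fX_apply (hm : 0 < m) (O : Outer m) (z : LL l) (v : VX l m) : 
    fX l hm O z v = phiL (LL l) hm O v.1 - z * (Dl l m).qq ^ (owr O) * v.2 := rfl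

theorem fX_push (hm : 0 < m) (O : Outer m) (z : LL l) (x : Letter m) (v : VX l m) : 
    fX l hm (O.push x.1 x.2) z v = fX l hm O z (gX (Dl l m) x O.up v) := by
  rw [fX_apply, fX_apply, gX_apply]
  have h1 := phiL_push (LL l) hm O x v.1
  have h2 := (push_writhe O x.1 x.2 (idx_lt x)).1
  have h3 : (if x.1 = true then (1:ℤ) else -1) = sgn x.1 := rfl
  rw [h1, h2, h3]
  show _ = phiL (LL l) hm O ((Dl l m).s1 x v.1) - 
    z * (Dl l m).qq ^ (owr O) * ((Dl l m).qq ^ (sgn x.1 * cst2 x O.up) * v.2)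
  rw [zpow_add₀ (Dl l m).qq_ne]
  unfold cst2
  ring

/-- the point of an outside and a value -/
noncomputable def st (hm : 0 < m) (O : Outer m) (z : LL l) : XX (LL l) (VX l m) (Fin m → Bool) := 
  (O.up, LinearMap.ker (fX l hm O z))

theorem st_push (hm : 0 < m) (O : Outer m) (z : LL l) (x : Letter m) : 
    (sX (Dl l m) x)⁻¹ (st l hm O z) = st l hm (O.push x.1 x.2) z := by
  rw [sX_inv_apply]
  refine Prod.ext (push_up O x).symm ?_
  apply Submodule.ext
  intro v
  show gX (Dl l m) x O.up v ∈ LinearMap.ker (fX l hm O z) ↔ v ∈ LinearMap.ker (fX l hm (O.push x.1 x.2) z)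
  rw [LinearMap.mem_ker, LinearMap.mem_ker, fX_push]

/-- drawing a list of letters -/
def dr (O : Outer m) (w : List (Letter m)) : Outer m := draw O (w.map (fun x => (x.1, (x.2 : ℕ))))

theorem dr_cons (O : Outer m) (x : Letter m) (w : List (Letter m)) : 
    dr O (x :: w) = dr (O.push x.1 x.2) w := rfl

theorem dr_append (O : Outer m) (w w' : List (Letter m)) : dr O (w ++ w') = dr (dr O w) w' := by
  unfold dr draw
  rw [List.map_append, List.foldl_append]

theorem st_word (hm : 0 < m) (z : LL l) : ∀ (w : List (Letter m)) (O : Outer m), 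
    (wX (Dl l m) w)⁻¹ (st l hm O z) = st l hm (dr O w) z
  | [], O => rfl
  | (x :: w), O => by
    rw [wX_cons, _root_.mul_inv_rev, Equiv.Perm.mul_apply, st_push, st_word hm z w, dr_cons]

/-- the initial vector -/
noncomputable def xiX (m : ℕ) : VX l m := (1, 1)

theorem xiX_mem (hm : 0 < m) (O : Outer m) (z : LL l) : 
    xiX l m ∈ LinearMap.ker (fX l hm O z) ↔ phi l O.close.fPoly = z := by
  have h1 : phiL (LL l) hm O (xiX l m).1 = phi l O.close.bracket := by
    have h2 : (xiX l m).1 = inc (LL l) m 1 := by rw [map_one]; rfl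
    rw [h2, phiL_inc, PhiS_one]
    rfl
  rw [LinearMap.mem_ker, fX_apply, h1, phi_fPoly (m := m), close_writhe]
  have h3 : (xiX l m).2 = 1 := rfl
  rw [h3, mul_one, sub_eq_zero]
  have h4 : (Dl l m).qq ^ owr O ≠ 0 := zpow_ne_zero _ (Dl l m).qq_ne
  rw [inv_mul_eq_iff_eq_mul₀ h4, mul_comm z]

/-- the points below the hyperplanes -/
def WX (hm : 0 < m) : Set (XX (LL l) (VX l m) (Fin m → Bool)) := 
  {y | ∃ (O : Outer m) (z : LL l), O.up = y.1 ∧ y.2 ≤ LinearMap.ker (fX l hm O z)}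

theorem WX_inv (hm : 0 < m) (y : XX (LL l) (VX l m) (Fin m → Bool)) (hy : y ∈ WX l hm) (x : Letter m) : 
    (sX (Dl l m) x)⁻¹ y ∈ WX l hm := by
  obtain ⟨O, z, h1, h2⟩ := hy
  refine ⟨O.push x.1 x.2, z, ?_, ?_⟩
  · rw [push_up, h1]; rfl
  · intro v hv
    rw [sX_inv_apply] at hv
    have h3 : gX (Dl l m) x y.1 v ∈ y.2 := hv
    have h4 := h2 h3
    rw [LinearMap.mem_ker] at h4 ⊢
    rw [fX_push, h1]
    exact h4

theorem WX_act (hm : 0 < m) (y : XX (LL l) (VX l m) (Fin m → Bool)) (hy : y ∈ WX l hm) (x : Letter m) : 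
    sX (Dl l m) x y ∈ WX l hm := by
  have h1 := WX_inv l hm y hy (inv' x)
  have h2 := sX_inv' (Dl l m) (inv' x)
  have h3 : inv' (inv' x) = x := by
    refine Prod.ext ?_ rfl
    show (!(!x.1)) = x.1
    simp
  rw [h3] at h2
  rwa [← h2] at h1

theorem WX_word (hm : 0 < m) (w : List (Letter m)) (y : XX (LL l) (VX l m) (Fin m → Bool)) 
    (hy : y ∈ WX l hm) : wX (Dl l m) w y ∈ WX l hm := by
  induction w with
  | nil => exact hy
  | cons x w ih => 
    rw [wX_cons, Equiv.Perm.mul_apply]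
    exact WX_act l hm _ ih x

theorem WX_zpow (hm : 0 < m) (y : XX (LL l) (VX l m) (Fin m → Bool)) 
    (hy : y ∈ WX l hm) (i : Fin (m - 1)) (n : ℤ) : (sX (Dl l m) (true, i) ^ n) y ∈ WX l hm := by
  rw [← wX_single]
  exact WX_word l hm _ y hy

theorem mem_word (w : List (Letter m)) (y : XX (LL l) (VX l m) (Fin m → Bool)) (v : VX l m) 
    (hv : v ∈ y.2) : ∃ c : LL l, ((inc (LL l) m (bZ m w) * v.1, c) : VX l m) ∈ (wX (Dl l m) w y).2 := by
  induction w with
  | nil =>
    refine ⟨v.2, ?_⟩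
    have h1 : bZ m ([] : List (Letter m)) = 1 := rfl
    rw [h1, map_one, one_mul]
    exact hv
  | cons x w ih =>
    obtain ⟨c, hc⟩ := ih
    rw [wX_cons, Equiv.Perm.mul_apply, sX_apply]
    set y' := wX (Dl l m) w y with hy'
    refine ⟨(Dl l m).qq ^ (sgn x.1 * cst2 x (y'.1 ∘ sw x)) * c, ?_⟩
    show _ ∈ y'.2.map (gX (Dl l m) x (y'.1 ∘ sw x) : VX l m →ₗ[LL l] VX l m)
    rw [Submodule.mem_map]
    refine ⟨_, hc, ?_⟩
    show gX (Dl l m) x (y'.1 ∘ sw x) _ = _
    rw [gX_apply]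
    refine Prod.ext ?_ rfl
    show sg ((Dl l m).Bb x.1) (Dl l m).e x.2 * (inc (LL l) m (bZ m w) * v.1) = 
      inc (LL l) m (bZ m (x :: w)) * v.1
    rw [sg_eq, bZ_cons, map_mul, mul_assoc]

theorem WX_xi (hm : 0 < m) (y : XX (LL l) (VX l m) (Fin m → Bool)) (hy : y ∈ WX l hm) 
    (hN : y ∉ NX (Dl l m)) : xiX l m ∉ y.2 := by
  intro hxi
  apply hN
  intro w i hi hS
  obtain ⟨O, z, _, h⟩ := WX_word l hm w y hy
  obtain ⟨c, hc⟩ := mem_word l w y (xiX l m) hxi
  have h2 := h (hS _ hc)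
  rw [LinearMap.mem_ker, fX_apply] at h2
  have h4 : (Dl l m).e i * (inc (LL l) m (bZ m w) * (xiX l m).1) = inc (LL l) m (EZ m i * bZ m w) := by
    have h5 : (xiX l m).1 = 1 := rfl
    rw [map_mul, h5, mul_one]
    rfl
  simp only [h4, mul_zero, sub_zero] at h2
  rw [phiL_inc, algebraMap_LL, phi_zero_iff] at h2
  exact not_dvd' l hm w O i hi h2

/-! ### the probability -/

theorem sum_pi_succ {k : ℕ} (A : Fin (k+1) → Finset ℤ) (F : (Fin (k+1) → ℤ) → ℝ) : 
    ∑ x ∈ Fintype.piFinset A, F x = 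
      ∑ n ∈ A 0, ∑ x' ∈ Fintype.piFinset (fun j => A j.succ), F (Fin.cons n x') := by
  rw [← Finset.sum_product' (A 0) (Fintype.piFinset (fun j => A j.succ)) (fun n x' => F (Fin.cons n x'))]
  refine Finset.sum_nbij' (fun x => (x 0, fun j => x j.succ)) (fun y => Fin.cons y.1 y.2) ?_ ?_ ?_ ?_ ?_
  · intro x hx
    rw [Fintype.mem_piFinset] at hx
    rw [Finset.mem_product, Fintype.mem_piFinset]
    exact ⟨hx 0, fun j => hx j.succ⟩
  · rintro ⟨n, x'⟩ hy
    rw [Finset.mem_product, Fintype.mem_piFinset] at hy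
    rw [Fintype.mem_piFinset]
    intro j
    refine Fin.cases ?_ (fun j => ?_) j
    · exact hy.1
    · exact hy.2 j
  · intro x _
    exact Fin.cons_self_tail x
  · rintro ⟨n, x'⟩ _
    rfl
  · intro x _
    congr 1
    exact (Fin.cons_self_tail x).symm

open Classical in
/-- the probability of the value `z` -/
noncomputable def probZ {k : ℕ} (i : Fin k → Fin (m - 1)) (μ : Fin k → Law) (O : Outer m) (z : LL l) : ℝ :=
  ∑ x ∈ Fintype.piFinset (fun j => (μ j).A), 
    if phi l (dr O (tw i x)).close.fPoly = z then ∏ j, (μ j).p (x j) else 0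

theorem tw_succ {k : ℕ} (i : Fin (k+1) → Fin (m - 1)) (n : ℤ) (x : Fin k → ℤ) : 
    tw i (Fin.cons n x : Fin (k+1) → ℤ) = powW [(true, i 0)] n ++ tw (fun j => i j.succ) x := by
  unfold tw
  rw [List.ofFn_succ, List.flatten_cons]
  rfl

theorem hit_st (hm : 0 < m) (z : LL l) : ∀ (k : ℕ) (i : Fin k → Fin (m - 1)) (μ : Fin k → Law) 
    (O : Outer m), hit (fun j => sX (Dl l m) (true, j)) (xiX l m) (List.ofFn (fun j => (i j, μ j))) 
      (st l hm O z) = probZ l i μ O z
  | 0, i, μ, O => by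
    classical
    unfold probZ
    rw [List.ofFn_zero]
    unfold hit
    have h1 : Fintype.piFinset (fun j : Fin 0 => (μ j).A) = {default} := by
      ext x
      rw [Fintype.mem_piFinset, Finset.mem_singleton]
      exact ⟨fun _ => Subsingleton.elim _ _, fun _ j => j.elim0⟩
    rw [h1, Finset.sum_singleton]
    have h : dr O (tw i (default : Fin 0 → ℤ)) = O := rfl
    rw [h]
    have h2 : xiX l m ∈ (st l hm O z).2 ↔ phi l O.close.fPoly = z := xiX_mem l hm O z
    simp only [h2, Finset.univ_eq_empty, Finset.prod_empty]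
  | (k+1), i, μ, O => by
    classical
    rw [List.ofFn_succ]
    unfold hit probZ
    rw [sum_pi_succ]
    refine Finset.sum_congr rfl fun n _ => ?_
    have h1 : ((sX (Dl l m) (true, i 0)) ^ n)⁻¹ (st l hm O z) = 
        st l hm (dr O (powW [(true, i 0)] n)) z := by
      rw [← wX_single, st_word]
    show (μ 0).p n * hit _ _ _ (((sX (Dl l m) (true, i 0)) ^ n)⁻¹ (st l hm O z)) = _
    rw [h1, hit_st hm z k, probZ, Finset.mul_sum]
    refine Finset.sum_congr rfl fun x _ => ?_
    rw [tw_succ, dr_append, Fin.prod_univ_succ]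
    simp only [Fin.cons_zero, Fin.cons_succ]
    split_ifs <;> ring

/-! ### the main estimate -/

/-- the constant -/
noncomputable def CU (m : ℕ) : ℝ := cst (2 ^ m) (m.factorial + 1)

theorem main (hm : 3 ≤ m) (O : Outer m) (z : LL l) (k : ℕ) (i : Fin k → Fin (m - 1)) (μ : Fin k → Law) 
    (ε : ℝ) (hε : 0 < ε) (u : ℕ) (hu : u * ((m.factorial + 1) * (m.factorial + 2)) ≤ turns i μ ε) : 
    probZ l i μ O z ≤ CU m * √(8 * ε) ^ u := by
  classical
  have hm0 : 0 < m := by omega
  have hC1 : 1 ≤ CU m := cst_ge _ _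
  rcases le_or_gt (√(8 * ε)) 1 with hρ1 | hρ1
  · obtain ⟨V, hV⟩ := exists_valuation l
    obtain ⟨hfin, hrank⟩ := finrank_TLL (LL l) hm0
    have ht : V.valuation (Dl l m).t < 1 := by
      have h1 : (Dl l m).t = (jj l Polynomial.X) ^ 2 := by
        show (phi l (T 1)) ^ 2 = _
        rw [phi_T, zpow_one]
      rw [h1, map_pow]
      exact pow_lt_one₀ zero_le hV two_ne_zero
    have hdim : Module.finrank (LL l) (VX l m) ≤ m.factorial + 1 := by
      rw [Module.finrank_prod, Module.finrank_self]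
      omega
    rw [← hit_st l hm0 z k i μ O]
    have hρ0 : 0 < √(8 * ε) := Real.sqrt_pos.2 (by positivity)
    have hcard : Fintype.card (Fin m → Bool) = 2 ^ m := by simp
    have hdec := decay (ξ := xiX l m) (Site := SiteU m ε) (fun j => sX_fib (Dl l m) (true, j)) 
      (NX (Dl l m)) (fun j n x hx => NX_zpow (Dl l m) j n x hx) (fun U => NX_bot (Dl l m) (by omega) U) 
      (WX l hm0) (fun x hx j n => WX_zpow l hm0 x hx j n) 
      (fun U W hUW W' hW' => by
        obtain ⟨O', z', h1, h2⟩ := hUW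
        exact ⟨O', z', h1, hW'.trans h2⟩) 
      (fun x hx hN => WX_xi l hm0 x hx hN) (√(8 * ε)) hρ0 hρ1 
      (fun a a' hs f hf => site_norm (Dl l m) V.valuation ht ε hε.le a a' hs f hf) u 
      (m.factorial + 1) (st l hm0 O z) ⟨O, z, rfl, le_rfl⟩ ((Submodule.finrank_le _).trans hdim) 
      (List.ofFn (fun j => (i j, μ j))) ?_
    · rw [hcard] at hdec
      exact hdec
    · apply con_of_cnt
      rw [← cnt_ofFn]
      have h1 : turns i μ ε ≤ (univ.filter (fun j : Fin k => ∃ h : (j : ℕ) + 1 < k, 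
          SiteU m ε (i j, μ j) (i ⟨j + 1, h⟩, μ ⟨j + 1, h⟩))).card := by
        unfold turns
        apply Finset.card_le_card
        intro j hj
        rw [Finset.mem_filter] at hj ⊢
        obtain ⟨_, h, h2, h3, h4⟩ := hj
        exact ⟨Finset.mem_univ _, h, h2, h3, h4⟩
      have h2 : 2 * ((m.factorial + 1) * (m.factorial + 1 + 1) / 2 * u) ≤ 
          u * ((m.factorial + 1) * (m.factorial + 2)) := by
        have h3 : 2 * ((m.factorial + 1) * (m.factorial + 1 + 1) / 2) ≤ 
            (m.factorial + 1) * (m.factorial + 1 + 1) := Nat.mul_div_le _ _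
        calc 2 * ((m.factorial + 1) * (m.factorial + 1 + 1) / 2 * u) 
            = (2 * ((m.factorial + 1) * (m.factorial + 1 + 1) / 2)) * u := by ring
          _ ≤ ((m.factorial + 1) * (m.factorial + 1 + 1)) * u := Nat.mul_le_mul_right _ h3
          _ = _ := by ring
      have h4 : (univ.filter (fun j : Fin k => ∃ h : (j : ℕ) + 1 < k, 
          SiteU m ε (i j, μ j) (i ⟨j + 1, h⟩, μ ⟨j + 1, h⟩))).card = 
          (@Finset.filter (Fin k) (fun j : Fin k => ∃ h : (j : ℕ) + 1 < k, 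
          SiteU m ε (i j, μ j) (i ⟨j + 1, h⟩, μ ⟨j + 1, h⟩)) (fun _ => Classical.propDecidable _) 
          univ).card := by
        congr
      omega
  · have h1 : probZ l i μ O z ≤ 1 := by
      rw [← hit_st l hm0 z k i μ O]
      exact hit_le_one _ _
    have h2 : 1 ≤ √(8 * ε) ^ u := one_le_pow₀ hρ1.le
    calc probZ l i μ O z ≤ 1 := h1
      _ = 1 * 1 := (one_mul 1).symm
      _ ≤ _ := mul_le_mul hC1 h2 zero_le_one (by linarith)

end Pool.Agent.Y463.UT
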