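import Pool.Agent.W705.JR.L2
import Pool.Agent.Y463.UT.Defs

/-!
# Averages over the powers of a permutation

If the orbits of a permutation meet a set in at most two consecutive points, random powers without large
atoms make functions supported on this set small.
-/

set_option autoImplicit false

namespace Pool.Agent.Y463.UT

open Finset Pool.Agent.W705.JR

variable {X : Type*}

/-- the average of the translates of `f` by the powers of `σ` -/
noncomputable def av (σ : Equiv.Perm X) (μ : Law) (f : L2 X) : L2 X := ∑ n ∈ μ.A, μ.p n • sh (σ ^ n) f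

theorem av_apply (σ : Equiv.Perm X) (μ : Law) (f : L2 X) (x : X) : 
    av σ μ f x = ∑ n ∈ μ.A, μ.p n * f ((σ ^ n)⁻¹ x) := by
  unfold av
  rw [lp.coeFn_sum, Finset.sum_apply]
  rfl

theorem av_norm_le (σ : Equiv.Perm X) (μ : Law) (f : L2 X) : ‖av σ μ f‖ ≤ ‖f‖ := by
  unfold av
  refine (norm_sum_le _ _).trans ?_
  calc ∑ n ∈ μ.A, ‖μ.p n • sh (σ ^ n) f‖ = ∑ n ∈ μ.A, μ.p n * ‖f‖ := by
        refine Finset.sum_congr rfl fun n _ => ?_
        rw [norm_smul, sh_norm, Real.norm_of_nonneg (μ.nn n)]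
    _ = ‖f‖ := by rw [← Finset.sum_mul, μ.sum, one_mul]
    _ ≤ _ := le_rfl

theorem av_add (σ : Equiv.Perm X) (μ : Law) (f g : L2 X) : av σ μ (f + g) = av σ μ f + av σ μ g := by
  unfold av
  rw [← Finset.sum_add_distrib]
  refine Finset.sum_congr rfl fun n _ => ?_
  rw [sh_add, smul_add]

theorem card_le_two (F : Finset ℤ) (h : ∀ n ∈ F, ∀ n' ∈ F, n ≤ n' + 1) : F.card ≤ 2 := by
  rcases F.eq_empty_or_nonempty with rfl | hF
  · simp
  · set a := F.min' hF with ha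
    have hsub : F ⊆ {a, a + 1} := by
      intro n hn
      have h1 := h n hn a (F.min'_mem hF)
      have h2 := F.min'_le n hn
      rw [← ha] at h2
      rw [Finset.mem_insert, Finset.mem_singleton]
      omega
    exact (Finset.card_le_card hsub).trans Finset.card_le_two

/-- the weight of a set of at most two integers -/
theorem weight_le (μ : Law) (ε : ℝ) (hε : 0 ≤ ε) (hμ : μ.Spread ε) (F : Finset ℤ) (hF : F ⊆ μ.A) 
    (h : ∀ n ∈ F, ∀ n' ∈ F, n ≤ n' + 1) : ∑ n ∈ F, μ.p n ≤ 2 * ε := by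
  have h1 := Finset.sum_le_card_nsmul F μ.p ε (fun n hn => hμ n (hF hn))
  have h2 : (F.card : ℝ) ≤ 2 := by exact_mod_cast card_le_two F h
  rw [nsmul_eq_mul] at h1
  exact h1.trans (mul_le_mul_of_nonneg_right h2 hε)

/-- orbits meet the set in at most two consecutive points -/
def TwoVal (σ : Equiv.Perm X) (E : Set X) : Prop := 
  ∀ (x : X) (n n' : ℤ), (σ ^ n) x ∈ E → (σ ^ n') x ∈ E → n ≤ n' + 1

theorem inv_zpow' (σ : Equiv.Perm X) (n : ℤ) : (σ ^ n)⁻¹ = σ ^ (-n) := (zpow_neg σ n).symm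

theorem norm_sq_le_sum {ι : Type*} (s : Finset ι) (c : ι → ℝ) (h : ι → L2 X) 
    (f : L2 X) (hf : ∀ x, (f x) ^ 2 ≤ ∑ i ∈ s, c i * (h i x) ^ 2) : 
    ‖f‖ ^ 2 ≤ ∑ i ∈ s, c i * ‖h i‖ ^ 2 := by
  have h1 : ∀ i ∈ s, Summable fun x => c i * (h i x) ^ 2 := fun i _ => (summable_sq (h i)).mul_left _
  rw [norm_sq]
  have h2 : ∑' x, ∑ i ∈ s, c i * (h i x) ^ 2 = ∑ i ∈ s, c i * ‖h i‖ ^ 2 := by
    rw [Summable.tsum_finsetSum h1]
    refine Finset.sum_congr rfl fun i _ => ?_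
    rw [tsum_mul_left, norm_sq]
  rw [← h2]
  exact Summable.tsum_le_tsum hf (summable_sq f) (summable_sum h1)

/-- functions supported on the set -/
theorem two1 (σ : Equiv.Perm X) (E : Set X) (hE : TwoVal σ E) (μ : Law) (ε : ℝ) (hε : 0 ≤ ε) 
    (hμ : μ.Spread ε) (f : L2 X) (hf : ∀ x, x ∉ E → f x = 0) : ‖av σ μ f‖ ^ 2 ≤ 2 * ε * ‖f‖ ^ 2 := by
  classical
  have h1 := norm_sq_le_sum μ.A (fun n => 2 * ε * μ.p n) (fun n => sh (σ ^ n) f) (av σ μ f) (by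
    intro x
    rw [av_apply]
    set F := μ.A.filter (fun n => (σ ^ n)⁻¹ x ∈ E) with hF
    have e1 : ∑ n ∈ μ.A, μ.p n * f ((σ ^ n)⁻¹ x) = ∑ n ∈ F, μ.p n * f ((σ ^ n)⁻¹ x) := by
      rw [hF, Finset.sum_filter]
      refine Finset.sum_congr rfl fun n _ => ?_
      split_ifs with h
      · rfl
      · rw [hf _ h, mul_zero]
    have e2 : (∑ n ∈ F, μ.p n * f ((σ ^ n)⁻¹ x)) ^ 2 ≤ 
        (∑ n ∈ F, μ.p n) * ∑ n ∈ F, μ.p n * f ((σ ^ n)⁻¹ x) ^ 2 := by
      apply Finset.sum_sq_le_sum_mul_sum_of_sq_eq_mul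
      · intro n _; exact μ.nn n
      · intro n _; exact mul_nonneg (μ.nn n) (sq_nonneg _)
      · intro n _; ring
    have e3 : ∑ n ∈ F, μ.p n ≤ 2 * ε := by
      apply weight_le μ ε hε hμ F (Finset.filter_subset _ _)
      intro n hn n' hn'
      rw [hF, Finset.mem_filter, inv_zpow'] at hn hn'
      have := hE x (-n') (-n) hn'.2 hn.2
      omega
    have e4 : ∑ n ∈ F, μ.p n * f ((σ ^ n)⁻¹ x) ^ 2 ≤ ∑ n ∈ μ.A, μ.p n * f ((σ ^ n)⁻¹ x) ^ 2 := 
      Finset.sum_le_sum_of_subset_of_nonneg (Finset.filter_subset _ _) 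
        (fun n _ _ => mul_nonneg (μ.nn n) (sq_nonneg _))
    have e5 : 0 ≤ ∑ n ∈ F, μ.p n * f ((σ ^ n)⁻¹ x) ^ 2 := 
      Finset.sum_nonneg fun n _ => mul_nonneg (μ.nn n) (sq_nonneg _)
    rw [e1]
    calc _ ≤ _ := e2
      _ ≤ (2 * ε) * ∑ n ∈ μ.A, μ.p n * f ((σ ^ n)⁻¹ x) ^ 2 := 
          mul_le_mul e3 e4 e5 (by positivity)
      _ = _ := by
          rw [Finset.mul_sum]
          refine Finset.sum_congr rfl fun n _ => ?_
          rw [sh_apply]; ring)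
  refine h1.trans (le_of_eq ?_)
  simp only [sh_norm]
  rw [← Finset.sum_mul, ← Finset.mul_sum, μ.sum, mul_one]

/-- the restriction of the average to the set -/
theorem two2 (σ : Equiv.Perm X) (E : Set X) (hE : TwoVal σ E) (μ : Law) (ε : ℝ) (hε : 0 ≤ ε) 
    (hμ : μ.Spread ε) (f : L2 X) : ‖res E (av σ μ f)‖ ^ 2 ≤ 2 * ε * ‖f‖ ^ 2 := by
  classical
  have h1 := norm_sq_le_sum μ.A (fun n => μ.p n) (fun n => sh (σ ^ n) (res {y | (σ ^ n) y ∈ E} f)) 
    (res E (av σ μ f)) (by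
      intro x
      rw [res_apply]
      split_ifs with hx
      · rw [av_apply]
        have e2 : (∑ n ∈ μ.A, μ.p n * f ((σ ^ n)⁻¹ x)) ^ 2 ≤ 
            (∑ n ∈ μ.A, μ.p n) * ∑ n ∈ μ.A, μ.p n * f ((σ ^ n)⁻¹ x) ^ 2 := by
          apply Finset.sum_sq_le_sum_mul_sum_of_sq_eq_mul
          · intro n _; exact μ.nn n
          · intro n _; exact mul_nonneg (μ.nn n) (sq_nonneg _)
          · intro n _; ring
        rw [μ.sum, one_mul] at e2
        refine e2.trans (le_of_eq ?_)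
        refine Finset.sum_congr rfl fun n _ => ?_
        rw [sh_apply, res_apply, if_pos]
        show (σ ^ n) ((σ ^ n)⁻¹ x) ∈ E
        have e3 : (σ ^ n) ((σ ^ n)⁻¹ x) = x := Equiv.apply_symm_apply _ _
        rw [e3]
        exact hx
      · rw [zero_pow two_ne_zero]
        exact Finset.sum_nonneg fun n _ => mul_nonneg (μ.nn n) (sq_nonneg _))
  refine h1.trans ?_
  simp only [sh_norm]
  have h2 : ∀ n ∈ μ.A, Summable fun y => μ.p n * (res {y | (σ ^ n) y ∈ E} f y) ^ 2 := 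
    fun n _ => (summable_sq _).mul_left _
  have h3 : ∑ n ∈ μ.A, μ.p n * ‖res {y | (σ ^ n) y ∈ E} f‖ ^ 2 = 
      ∑' y, ∑ n ∈ μ.A, μ.p n * (res {y | (σ ^ n) y ∈ E} f y) ^ 2 := by
    rw [Summable.tsum_finsetSum h2]
    refine Finset.sum_congr rfl fun n _ => ?_
    rw [tsum_mul_left, norm_sq]
  rw [h3, norm_sq f, ← tsum_mul_left]
  refine Summable.tsum_le_tsum ?_ (summable_sum h2) ((summable_sq f).mul_left _)
  intro y
  have e1 : ∑ n ∈ μ.A, μ.p n * (res {y | (σ ^ n) y ∈ E} f y) ^ 2 = 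
      (∑ n ∈ μ.A.filter (fun n => (σ ^ n) y ∈ E), μ.p n) * (f y) ^ 2 := by
    rw [Finset.sum_filter, Finset.sum_mul]
    refine Finset.sum_congr rfl fun n _ => ?_
    rw [res_apply]
    by_cases h : (σ ^ n) y ∈ E
    · rw [if_pos h, if_pos (show y ∈ {y | (σ ^ n) y ∈ E} from h)]
    · rw [if_neg h, if_neg (show ¬ y ∈ {y | (σ ^ n) y ∈ E} from h)]
      simp
  rw [e1]
  refine mul_le_mul_of_nonneg_right ?_ (sq_nonneg _)
  apply weight_le μ ε hε hμ _ (Finset.filter_subset _ _)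
  intro n hn n' hn'
  rw [Finset.mem_filter] at hn hn'
  exact hE y n n' hn.2 hn'.2

/-- two steps -/
theorem pair_norm (σ σ' : Equiv.Perm X) (E E' N : Set X) (hE : TwoVal σ E) (hE' : TwoVal σ' E') 
    (hN : ∀ x, x ∈ N → x ∈ E ∨ x ∈ E') (hσ' : ∀ (n : ℤ) (x : X), (σ' ^ n) x ∈ N → x ∈ N) 
    (μ μ' : Law) (ε : ℝ) (hε : 0 ≤ ε) (hμ : μ.Spread ε) (hμ' : μ'.Spread ε) 
    (f : L2 X) (hf : ∀ x, x ∉ N → f x = 0) : ‖av σ μ (av σ' μ' f)‖ ≤ √(8 * ε) * ‖f‖ := by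
  classical
  set g := av σ' μ' f with hg
  have hgN : ∀ x, x ∉ N → g x = 0 := by
    intro x hx
    rw [hg, av_apply]
    refine Finset.sum_eq_zero fun n _ => ?_
    rw [hf, mul_zero]
    intro h
    rw [inv_zpow'] at h
    exact hx (hσ' (-n) x h)
  have hsplit : g = res E' g + res (N \ E') g := by
    ext x
    rw [lp.coeFn_add, Pi.add_apply, res_apply, res_apply]
    by_cases h1 : x ∈ E'
    · have h2 : x ∉ N \ E' := fun h => h.2 h1
      rw [if_pos h1, if_neg h2, add_zero]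
    · by_cases h2 : x ∈ N
      · have h3 : x ∈ N \ E' := ⟨h2, h1⟩
        rw [if_neg h1, if_pos h3, zero_add]
      · have h3 : x ∉ N \ E' := fun h => h2 h.1
        rw [if_neg h1, if_neg h3, hgN x h2, add_zero]
  have hs : √(8 * ε) = 2 * √(2 * ε) := by
    have : 8 * ε = 2 ^ 2 * (2 * ε) := by ring
    rw [this, Real.sqrt_mul (by norm_num), Real.sqrt_sq (by norm_num)]
  have key : ∀ a b : ℝ, 0 ≤ a → 0 ≤ b → a ^ 2 ≤ 2 * ε * b ^ 2 → a ≤ √(2 * ε) * b := by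
    intro a b ha hb h
    refine abs_le_of_sq_le_sq' ?_ (mul_nonneg (Real.sqrt_nonneg _) hb) |>.2
    rw [mul_pow, Real.sq_sqrt (by positivity)]
    exact h
  have h1 : ‖res E' g‖ ≤ √(2 * ε) * ‖f‖ := 
    key _ _ (norm_nonneg _) (norm_nonneg _) (two2 σ' E' hE' μ' ε hε hμ' f)
  have h2 : ‖av σ μ (res (N \ E') g)‖ ≤ √(2 * ε) * ‖res (N \ E') g‖ := by
    apply key _ _ (norm_nonneg _) (norm_nonneg _)
    apply two1 σ E hE μ ε hε hμ
    intro x hx
    rw [res_apply, if_neg]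
    rintro ⟨h3, h4⟩
    rcases hN x h3 with h5 | h5
    · exact hx h5
    · exact h4 h5
  have h3 : ‖res (N \ E') g‖ ≤ ‖f‖ := (res_norm_le _ _).trans (av_norm_le _ _ _)
  calc ‖av σ μ g‖ = ‖av σ μ (res E' g) + av σ μ (res (N \ E') g)‖ := by rw [← av_add, ← hsplit]
    _ ≤ ‖av σ μ (res E' g)‖ + ‖av σ μ (res (N \ E') g)‖ := norm_add_le _ _
    _ ≤ √(2 * ε) * ‖f‖ + √(2 * ε) * ‖f‖ := by
        refine add_le_add ((av_norm_le _ _ _).trans h1) (h2.trans ?_)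
        exact mul_le_mul_of_nonneg_left h3 (Real.sqrt_nonneg _)
    _ = _ := by rw [hs]; ring

end Pool.Agent.Y463.UT
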